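import Mathlib

/-!
# Polynomial inequalities for the planar step
-/

namespace Pool.Agent.Lib.MP_359af5_co

/-- The polynomial used when the longest line contains at most half of the points. -/
def F1 (K t l b : ℝ) : ℝ :=
  96 * (K + t - 1) * b ^ 2 - 48 * l * b ^ 2 - 24 * (K + t - 1) * b * l * (K + t - 2)
    - 48 * (K + t - 1) * b * (K + t - l) + 32 * (K + t - 1) * l * (K + t - 2)
    - 112 * (K + t - 1) * (K + t - l) - 6 * (K + t - 1) * (K - l) * K ^ 2 * t

/-- The polynomial used when the longest line contains at least half of the points. -/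
def F2 (K t l b : ℝ) : ℝ :=
  96 * (K + t - 1) * b ^ 2 - 48 * l * b ^ 2 - 24 * (K + t - 1) * b * l * (K + t - 2)
    - 48 * (K + t - 1) * b * (K + t - l) + 32 * (K + t - 1) * l * (K + t - 2)
    - 112 * (K + t - 1) * (K + t - l) - 16 * (K + t - 1) * (K - l) * (b - 1) * (t - 1)

section

variable {u z w v : ℝ} (hu : 0 ≤ u) (hz : 0 ≤ z) (hw : 0 ≤ w) (hv : 0 ≤ v)

include hu hz hw hv

lemma F1_a {K t l b : ℝ} (hl : l = 5 + u + z + w) (hK : K = l + u) (ht : t = 2 * l - 5 - z)
    (hb : b = 2 + (K - 1) * (l - 1) + v) : 0 ≤ F1 K t l b := by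
  subst hb ht hK hl
  unfold F1
  ring_nf
  positivity

lemma F2_a {K t l b : ℝ} (hl : l = 5 + z + w) (hK : K = t + u) (ht : t = 2 * l - 5 - z)
    (hb : b = 2 + (K - 1) * (l - 1) + v) : 0 ≤ F2 K t l b := by
  subst hb hK ht hl
  unfold F2
  ring_nf
  positivity

lemma F1_d {K t l b : ℝ} (hl : l = 4 + u + z) (hK : K = l + u) (ht : t = 2 * l - 4 + w)
    (hb : b = 1 + K * (t + 1) / 2 + v) : 0 ≤ F1 K t l b := by
  subst hb ht hK hl
  have h : 0 ≤ F1 (4 + u + z + u) (2 * (4 + u + z) - 4 + w) (4 + u + z)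
      (1 + (4 + u + z + u) * (2 * (4 + u + z) - 4 + w + 1) / 2 + v)
      - 108 * (z ^ 2 - 19 / 9) ^ 2 := by
    unfold F1
    ring_nf
    positivity
  nlinarith [sq_nonneg (z ^ 2 - 19 / 9)]

lemma F1_e {K t l b : ℝ} (hl : l = 4 + z) (hK : K = 2 * l - 4 + u) (ht : t = K + w)
    (hb : b = 1 + K * (t + 1) / 2 + v) : 0 ≤ F1 K t l b := by
  subst hb ht hK hl
  unfold F1
  ring_nf
  positivity

lemma F2_e {K t l b : ℝ} (hl : l = 4 + z) (ht : t = 2 * l - 4 + w) (hK : K = t + u)
    (hb : b = 1 + K * (t + 1) / 2 + v) : 0 ≤ F2 K t l b := by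
  subst hb hK ht hl
  unfold F2
  ring_nf
  positivity

end

lemma F2_b {u z v : ℝ} (hu : 0 ≤ u) (hz : 0 ≤ z) (hv : 0 ≤ v) {K t l b : ℝ}
    (hl : l = 4 + z) (hK : K = t + u + 1) (ht : t = 2 * l - 5 - z)
    (hb : b = 2 + (K - 1) * (l - 1) + v) : 0 ≤ F2 K t l b := by
  subst hb hK ht hl
  unfold F2
  ring_nf
  positivity

lemma F1_c {u w v : ℝ} (hu : 0 ≤ u) (hw : 0 ≤ w) (hv : 0 ≤ v) {K t l b : ℝ}
    (hl : l = 3) (hK : K = 3 + u) (ht : t = K + w)
    (hb : b = 1 + K * (t + 1) / 2 + v) : 0 ≤ F1 K t l b := by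
  subst hb ht hK hl
  unfold F1
  ring_nf
  positivity

lemma F2_c {u w v : ℝ} (hu : 0 ≤ u) (hw : 0 ≤ w) (hv : 0 ≤ v) {K t l b : ℝ}
    (hl : l = 3) (ht : t = 3 + w) (hK : K = t + u)
    (hb : b = 1 + K * (t + 1) / 2 + v) : 0 ≤ F2 K t l b := by
  subst hb hK ht hl
  unfold F2
  ring_nf
  positivity

lemma F2_d {u v : ℝ} (hu : 0 ≤ u) (hv : 0 ≤ v) {K t l b : ℝ}
    (hl : l = 3) (ht : t = 2) (hK : K = 3 + u)
    (hb : b = 1 + K * (t + 1) / 2 + v) : 0 ≤ F2 K t l b := by
  subst hb hK ht hl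
  unfold F2
  ring_nf
  positivity

theorem F1_nonneg {K t l b : ℕ} (h3 : 3 ≤ l) (hlK : l ≤ K) (hKt : K ≤ t)
    (hb1 : K * (t + 1) + 2 ≤ 2 * b) (hb4 : 2 + (K - 1) * (l - 1) ≤ b) :
    0 ≤ F1 K t l b := by
  have hb1' : (K : ℝ) * (t + 1) + 2 ≤ 2 * b := by exact_mod_cast hb1
  have h3' : (3 : ℝ) ≤ l := by exact_mod_cast h3
  have hlK' : (l : ℝ) ≤ K := by exact_mod_cast hlK
  have hKt' : (K : ℝ) ≤ t := by exact_mod_cast hKt
  have hb4' : 2 + ((K : ℝ) - 1) * (l - 1) ≤ b := by
    have : ((2 + (K - 1) * (l - 1) : ℕ) : ℝ) ≤ b := by exact_mod_cast hb4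
    rw [Nat.cast_add, Nat.cast_mul, Nat.cast_sub (by omega), Nat.cast_sub (by omega)] at this
    simpa using this
  by_cases h : t + 5 ≤ 2 * l
  · have h' : (t : ℝ) + 5 ≤ 2 * l := by exact_mod_cast h
    exact F1_a (u := K - l) (z := 2 * l - 5 - t) (w := t - K) (v := b - (2 + (K - 1) * (l - 1)))
      (by linarith) (by linarith) (by linarith) (by linarith) (by ring) (by ring) (by ring)
      (by ring)
  · have h' : 2 * (l : ℝ) ≤ t + 4 := by
      have : 2 * l ≤ t + 4 := by omega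
      exact_mod_cast this
    rcases Nat.lt_or_ge 3 l with h4 | h4
    · have h4' : (4 : ℝ) ≤ l := by exact_mod_cast h4
      rcases le_total (K : ℝ) (2 * l - 4) with h5 | h5
      · exact F1_d (u := K - l) (z := 2 * l - 4 - K) (w := t - (2 * l - 4))
          (v := b - (1 + K * (t + 1) / 2))
          (by linarith) (by linarith) (by linarith) (by linarith) (by ring) (by ring) (by ring)
          (by ring)
      · exact F1_e (u := K - (2 * l - 4)) (z := l - 4) (w := t - K)
          (v := b - (1 + K * (t + 1) / 2))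
          (by linarith) (by linarith) (by linarith) (by linarith) (by ring) (by ring) (by ring)
          (by ring)
    · have h5 : l = 3 := by omega
      have h5' : (l : ℝ) = 3 := by rw [h5]; norm_num
      exact F1_c (u := K - 3) (w := t - K) (v := b - (1 + K * (t + 1) / 2))
        (by linarith) (by linarith) (by linarith) h5' (by ring) (by ring) (by ring)

theorem F2_nonneg {K t l b : ℕ} (h3 : 3 ≤ l) (hlK : l ≤ K) (hlt : l ≤ t + 1) (hKt : t ≤ K)
    (hb1 : K * (t + 1) + 2 ≤ 2 * b) (hb4 : 2 + (K - 1) * (l - 1) ≤ b) :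
    0 ≤ F2 K t l b := by
  have hb1' : (K : ℝ) * (t + 1) + 2 ≤ 2 * b := by exact_mod_cast hb1
  have h3' : (3 : ℝ) ≤ l := by exact_mod_cast h3
  have hlK' : (l : ℝ) ≤ K := by exact_mod_cast hlK
  have hlt' : (l : ℝ) ≤ t + 1 := by exact_mod_cast hlt
  have hKt' : (t : ℝ) ≤ K := by exact_mod_cast hKt
  have hb4' : 2 + ((K : ℝ) - 1) * (l - 1) ≤ b := by
    have : ((2 + (K - 1) * (l - 1) : ℕ) : ℝ) ≤ b := by exact_mod_cast hb4
    rw [Nat.cast_add, Nat.cast_mul, Nat.cast_sub (by omega), Nat.cast_sub (by omega)] at this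
    simpa using this
  by_cases h : t + 5 ≤ 2 * l
  · have h' : (t : ℝ) + 5 ≤ 2 * l := by exact_mod_cast h
    rcases Nat.lt_or_ge l (t + 1) with h1 | h1
    · have h1' : (l : ℝ) + 1 ≤ t + 1 := by exact_mod_cast h1
      exact F2_a (u := K - t) (z := 2 * l - 5 - t) (w := t - l)
        (v := b - (2 + (K - 1) * (l - 1)))
        (by linarith) (by linarith) (by linarith) (by linarith) (by ring) (by ring) (by ring)
        (by ring)
    · have h2 : l = t + 1 := by omega
      have h3 : t + 1 ≤ K := by omega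
      have h2' : (l : ℝ) = t + 1 := by exact_mod_cast h2
      have h3' : (t : ℝ) + 1 ≤ K := by exact_mod_cast h3
      exact F2_b (u := K - t - 1) (z := 2 * l - 5 - t)
        (v := b - (2 + (K - 1) * (l - 1)))
        (by linarith) (by linarith) (by linarith) (by linarith) (by ring) (by ring) (by ring)
  · have h' : 2 * (l : ℝ) ≤ t + 4 := by
      have : 2 * l ≤ t + 4 := by omega
      exact_mod_cast this
    rcases Nat.lt_or_ge 3 l with h4 | h4
    · have h4' : (4 : ℝ) ≤ l := by exact_mod_cast h4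
      exact F2_e (u := K - t) (z := l - 4) (w := t - (2 * l - 4))
          (v := b - (1 + K * (t + 1) / 2))
          (by linarith) (by linarith) (by linarith) (by linarith) (by ring) (by ring) (by ring)
          (by ring)
    · have h5 : l = 3 := by omega
      have h5' : (l : ℝ) = 3 := by rw [h5]; norm_num
      rcases Nat.lt_or_ge 2 t with h6 | h6
      · have h6' : (3 : ℝ) ≤ t := by exact_mod_cast h6
        exact F2_c (u := K - t) (w := t - 3) (v := b - (1 + K * (t + 1) / 2))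
          (by linarith) (by linarith) (by linarith) h5' (by ring) (by ring) (by ring)
      · have h7 : t = 2 := by omega
        have h7' : (t : ℝ) = 2 := by rw [h7]; norm_num
        exact F2_d (u := K - 3) (v := b - (1 + K * (t + 1) / 2))
          (by linarith) (by linarith) h5' h7' (by ring) (by ring)

end Pool.Agent.Lib.MP_359af5_co
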