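import Mathlib

/-!
# Points, lines and planes: abstract finite incidence structures

`LinSpace P L` : a finite linear space (rank 3 or less) with point set `P` and line set `L`.
`Geom P L J`   : points, lines and planes of a simple matroid of rank at most 4.
-/

namespace Pool.Agent.Lib.MP_359af5_co

open Finset

variable {α : Type*} [DecidableEq α]

/-- A finite linear space: every line is a subset of `P` with at least two points and every two
distinct points lie on exactly one line. -/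
structure LinSpace (P : Finset α) (L : Finset (Finset α)) : Prop where
  sub : ∀ m ∈ L, m ⊆ P
  two : ∀ m ∈ L, 2 ≤ #m
  cover : ∀ x ∈ P, ∀ y ∈ P, x ≠ y → ∃ m ∈ L, x ∈ m ∧ y ∈ m
  uniq : ∀ m ∈ L, ∀ m' ∈ L, ∀ x y, x ≠ y → x ∈ m → y ∈ m → x ∈ m' → y ∈ m' → m = m'

/-- Points, lines and planes. -/
structure Geom (P : Finset α) (L J : Finset (Finset α)) : Prop where
  lin : LinSpace P L
  jsub : ∀ j ∈ J, j ⊆ P
  jflat : ∀ j ∈ J, ∀ m ∈ L, ∀ x y, x ≠ y → x ∈ m → y ∈ m → x ∈ j → y ∈ j → m ⊆ j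
  jline : ∀ j ∈ J, ∀ m ∈ L, ¬ j ⊆ m
  jcard : ∀ j ∈ J, 2 ≤ #j
  jcover : ∀ m ∈ L, ∀ z ∈ P, z ∉ m → ∃ j ∈ J, m ⊆ j ∧ z ∈ j
  juniq : ∀ j ∈ J, ∀ j' ∈ J, ∀ m ∈ L, ∀ z, z ∉ m → m ⊆ j → z ∈ j → m ⊆ j' → z ∈ j' → j = j'

/-- `lam L x` is the sum of `1 / |m|` over the lines `m` through `x`. -/
noncomputable def lam (L : Finset (Finset α)) (x : α) : ℝ :=
  ∑ m ∈ L with x ∈ m, (1 : ℝ) / #m

/-- The local variance of a plane. -/
noncomputable def locVar (P : Finset α) (L : Finset (Finset α)) : ℝ :=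
  ∑ m ∈ L, (∑ x ∈ m, ∑ y ∈ m, (lam L x - lam L y) ^ 2) / (2 * ((#P : ℝ) - #m))

/-- The local energy of a plane. -/
noncomputable def locEn (P : Finset α) (L : Finset (Finset α)) : ℝ :=
  ∑ x ∈ P, lam L x ^ 2 - ∑ m ∈ L, (1 : ℝ) / #m

/-- The planar inequality. -/
def Planar (P : Finset α) (L : Finset (Finset α)) : Prop :=
  locVar P L + 3 / 2 ≤ locEn P L

end Pool.Agent.Lib.MP_359af5_co
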