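import Pool.Agent.Lib.MP_359af5_co.Count

/-!
# Bounds in a finite linear space
-/

namespace Pool.Agent.Lib.MP_359af5_co

open Finset

variable {α : Type*} [DecidableEq α] {P : Finset α} {L : Finset (Finset α)}

/-- Reduction of the planar inequality to a bound on the number of lines. -/
lemma LinSpace.planar_of (h : LinSpace P L) {M : Finset α} (hM : M ∈ L) (hMP : #M < #P)
    (l : ℝ) (hl : ∀ m ∈ L, m ≠ M → (#m : ℝ) ≤ l) (hln : l < #P) (D : ℝ)
    (hD : ∑ x ∈ M, ∑ y ∈ M, (lam L x - lam L y) ^ 2 = 2 * D)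
    (hb : l * ∑ x ∈ P, lam L x ^ 2 + (#P - l) * (∑ m ∈ L, (1 : ℝ) / #m + 3 / 2) +
      ((#M : ℝ) - l) / (#P - #M) * D ≤ (#L : ℝ) ^ 2) : Planar P L := by
  unfold Planar locVar locEn
  set X := ∑ x ∈ P, lam L x ^ 2 with hX
  set W := ∑ m ∈ L, (1 : ℝ) / #m with hW
  have ht : (0 : ℝ) < #P - #M := by
    have : (#M : ℝ) < #P := by exact_mod_cast hMP
    linarith
  have hs : (0 : ℝ) < #P - l := by linarith
  have h1 := sum_sq_diff P (lam L)
  rw [h.sum_lam, ← h.sum_pairs (fun x y => (lam L x - lam L y) ^ 2)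
    (fun x => by ring), ← hX, ← add_sum_erase L _ hM, hD] at h1
  have h2 : ∑ m ∈ L, (∑ x ∈ m, ∑ y ∈ m, (lam L x - lam L y) ^ 2) / (2 * ((#P : ℝ) - #m)) ≤
      D / (#P - #M) + (#P * X - #L ^ 2 - D) / (#P - l) := by
    rw [← add_sum_erase L _ hM, hD]
    have h3 : ∑ m ∈ L.erase M, (∑ x ∈ m, ∑ y ∈ m, (lam L x - lam L y) ^ 2) /
        (2 * ((#P : ℝ) - #m)) ≤ ∑ m ∈ L.erase M,
        (∑ x ∈ m, ∑ y ∈ m, (lam L x - lam L y) ^ 2) / (2 * ((#P : ℝ) - l)) := by
      apply sum_le_sum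
      intro m hm
      rw [mem_erase] at hm
      have h4 := hl m hm.2 hm.1
      apply div_le_div_of_nonneg_left
      · exact sum_nonneg fun x _ => sum_nonneg fun y _ => sq_nonneg _
      · linarith
      · linarith
    rw [← sum_div] at h3
    have h5 : ∑ m ∈ L.erase M, ∑ x ∈ m, ∑ y ∈ m, (lam L x - lam L y) ^ 2 =
        2 * (#P * X - #L ^ 2 - D) := by linarith
    rw [h5, mul_div_mul_left _ _ (two_ne_zero)] at h3
    rw [mul_div_mul_left _ _ (two_ne_zero)]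
    linarith
  have h6 : ((#M : ℝ) - l) / (#P - #M) * D = (#P - l) * (D / (#P - #M)) - D := by
    field_simp
    ring
  rw [h6] at hb
  have h7 : (#P * X - #L ^ 2 - D) / (#P - l) ≤ X - W - 3 / 2 - D / (#P - #M) := by
    rw [div_le_iff₀ hs]
    linarith
  linarith

lemma sum_offdiag (S : Finset α) (g : α → α → ℝ) :
    ∑ x ∈ S, ∑ y ∈ S, (if x = y then 0 else g x y) =
      ∑ x ∈ S, ∑ y ∈ S, g x y - ∑ x ∈ S, g x x := by
  rw [← sum_sub_distrib]
  apply sum_congr rfl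
  intro x hx
  have h1 : ∀ y ∈ S, (if x = y then 0 else g x y) = g x y - if x = y then g x y else 0 := by
    intro y _
    split_ifs <;> ring
  rw [sum_congr rfl h1, sum_sub_distrib, sum_ite_eq, if_pos hx]

/-- The upper bound for the second moment of `lam`. -/
lemma LinSpace.sum_sq_le (h : LinSpace P L) (hn : 3 ≤ #P) :
    ∑ x ∈ P, lam L x ^ 2 ≤ (#L : ℝ) ^ 2 / (2 * (#P - 1)) +
      ((#P : ℝ) - 2) / 2 * ∑ m ∈ L, 1 / ((#m : ℝ) * (#m - 1)) := by
  have hn' : (3 : ℝ) ≤ #P := by exact_mod_cast hn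
  set n : ℝ := (#P : ℝ) with hn0
  set b : ℝ := (#L : ℝ) with hb0
  set X := ∑ x ∈ P, lam L x ^ 2 with hX
  set a : ℝ := 1 / (n - 2) with ha
  set β : ℝ := 1 / ((n - 1) * (n - 2)) with hβ
  set q : α → α → ℝ := fun x y => a * (lam L x + lam L y) - β * b with hq
  have hpt : ∀ m ∈ L, 0 ≤ 1 / ((#m : ℝ) * (#m - 1)) - 4 * a * (∑ x ∈ m, 1 / (#m : ℝ) * lam L x)
      + 2 * β * b + ∑ x ∈ m, ∑ y ∈ m, (if x = y then 0 else q x y ^ 2) := by
    intro m hm
    have hk : (2 : ℝ) ≤ #m := by exact_mod_cast h.two m hm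
    set k : ℝ := (#m : ℝ) with hk0
    have hk1 : k ≠ 0 := by linarith
    have hk2 : k - 1 ≠ 0 := by linarith
    set w : ℝ := 1 / (k * (k - 1)) with hw
    have h1 : 0 ≤ ∑ x ∈ m, ∑ y ∈ m, (if x = y then 0 else (w - q x y) ^ 2) := by
      apply sum_nonneg
      intro x _
      apply sum_nonneg
      intro y _
      split_ifs
      · exact le_rfl
      · exact sq_nonneg _
    have h2 : ∑ x ∈ m, ∑ y ∈ m, (if x = y then 0 else (w - q x y) ^ 2) =
        w - 4 * a * (∑ x ∈ m, 1 / k * lam L x) + 2 * β * b +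
        ∑ x ∈ m, ∑ y ∈ m, (if x = y then 0 else q x y ^ 2) := by
      have h3 : ∀ x ∈ m, ∀ y ∈ m, (if x = y then 0 else (w - q x y) ^ 2) =
          (if x = y then 0 else (w ^ 2 + 2 * w * β * b) - 2 * w * a * (lam L x + lam L y)) +
          (if x = y then 0 else q x y ^ 2) := by
        intro x _ y _
        split_ifs
        · ring
        · simp only [hq]
          ring
      rw [sum_congr rfl (fun x hx => sum_congr rfl (h3 x hx))]
      simp_rw [sum_add_distrib]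
      congr 1
      rw [sum_offdiag]
      simp_rw [sum_sub_distrib, mul_add, sum_add_distrib, ← mul_sum, sum_const, nsmul_eq_mul]
      rw [← hk0, hw]
      simp_rw [← mul_sum]
      field_simp
      ring
    rw [h2] at h1
    exact h1
  have h1 := sum_nonneg hpt
  rw [sum_add_distrib, sum_add_distrib, sum_sub_distrib, ← mul_sum, h.sum_lam_mul,
    h.sum_pairs (fun x y => if x = y then 0 else q x y ^ 2) (fun x => by simp), sum_offdiag,
    sum_const, nsmul_eq_mul, ← hX, ← hb0] at h1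
  have h2 : ∑ x ∈ P, ∑ y ∈ P, q x y ^ 2 = a ^ 2 * (2 * n * X + 2 * b ^ 2)
      - 4 * a * β * n * b ^ 2 + β ^ 2 * b ^ 2 * n ^ 2 := by
    have h3 : ∀ x ∈ P, ∑ y ∈ P, q x y ^ 2 = a ^ 2 * (n * lam L x ^ 2 + 2 * b * lam L x + X)
        - 2 * a * β * b * (n * lam L x + b) + β ^ 2 * b ^ 2 * n := by
      intro x _
      have h4 : ∀ y ∈ P, q x y ^ 2 = a ^ 2 * lam L x ^ 2 + 2 * a ^ 2 * lam L x * lam L y +
          a ^ 2 * lam L y ^ 2 - 2 * a * β * b * lam L x - 2 * a * β * b * lam L y +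
          β ^ 2 * b ^ 2 := by
        intro y _
        simp only [hq]
        ring
      rw [sum_congr rfl h4]
      simp_rw [sum_add_distrib, sum_sub_distrib, sum_add_distrib, ← mul_sum, sum_const,
        nsmul_eq_mul]
      rw [h.sum_lam, ← hX, ← hn0, ← hb0]
      ring
    rw [sum_congr rfl h3]
    simp_rw [sum_add_distrib, sum_sub_distrib, ← mul_sum, sum_add_distrib, ← mul_sum, sum_const,
        nsmul_eq_mul]
    rw [h.sum_lam, ← hX, ← hn0, ← hb0]
    ring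
  have h5 : ∑ x ∈ P, q x x ^ 2 = 4 * a ^ 2 * X - 4 * a * β * b ^ 2 + β ^ 2 * b ^ 2 * n := by
    have h6 : ∀ x ∈ P, q x x ^ 2 = 4 * a ^ 2 * lam L x ^ 2 - 4 * a * β * b * lam L x +
        β ^ 2 * b ^ 2 := by
      intro x _
      simp only [hq]
      ring
    rw [sum_congr rfl h6]
    simp_rw [sum_add_distrib, sum_sub_distrib, ← mul_sum, sum_const, nsmul_eq_mul]
    rw [h.sum_lam, ← hX, ← hn0, ← hb0]
    ring
  rw [h2, h5] at h1
  set W := ∑ m ∈ L, 1 / ((#m : ℝ) * (#m - 1)) with hW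
  have hn1 : n - 1 ≠ 0 := by linarith
  have hn2 : n - 2 ≠ 0 := by linarith
  have h7 : W - 4 * a * X + b * (2 * β * b) + (a ^ 2 * (2 * n * X + 2 * b ^ 2)
      - 4 * a * β * n * b ^ 2 + β ^ 2 * b ^ 2 * n ^ 2 -
      (4 * a ^ 2 * X - 4 * a * β * b ^ 2 + β ^ 2 * b ^ 2 * n)) =
      2 / (n - 2) * (b ^ 2 / (2 * (n - 1)) + (n - 2) / 2 * W - X) := by
    rw [ha, hβ]
    field_simp
    ring
  rw [h7] at h1
  have h8 : 0 < 2 / (n - 2) := by
    apply div_pos two_pos
    linarith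
  have h9 := nonneg_of_mul_nonneg_right h1 h8
  linarith

end Pool.Agent.Lib.MP_359af5_co
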