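import Pool.Agent.Lib.MP_359af5_co.Rank4

/-!
# Counting lemmas in a finite linear space
-/

namespace Pool.Agent.Lib.MP_359af5_co

open Finset

variable {α : Type*} [DecidableEq α] {P : Finset α} {L : Finset (Finset α)}

lemma sum_ite_prod (S A B : Finset α) :
    ∑ x ∈ S, ∑ y ∈ S, (if x ∈ A ∧ y ∈ B then (1 : ℝ) else 0) = #(S ∩ A) * #(S ∩ B) := by
  have h1 : ∀ x ∈ S, ∑ y ∈ S, (if x ∈ A ∧ y ∈ B then (1 : ℝ) else 0) =
      if x ∈ A then (#(S ∩ B) : ℝ) else 0 := by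
    intro x _
    by_cases hx : x ∈ A
    · simp only [hx, true_and, if_true]
      rw [← sum_filter, filter_mem_eq_inter, sum_const, nsmul_eq_mul, mul_one]
    · simp [hx]
  rw [sum_congr rfl h1, ← sum_filter, filter_mem_eq_inter, sum_const, nsmul_eq_mul]

lemma sum_ite_off (S A : Finset α) :
    ∑ x ∈ S, ∑ y ∈ S, (if x ∈ A ∧ y ∈ A ∧ x ≠ y then (1 : ℝ) else 0) =
      #(S ∩ A) * (#(S ∩ A) - 1) := by
  have h1 : ∀ x ∈ S, ∑ y ∈ S, (if x ∈ A ∧ y ∈ A ∧ x ≠ y then (1 : ℝ) else 0) =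
      if x ∈ A then (#(S ∩ A) : ℝ) - 1 else 0 := by
    intro x hxS
    by_cases hx : x ∈ A
    · simp only [hx, true_and, if_true]
      rw [← sum_filter, sum_const, nsmul_eq_mul, mul_one]
      have h2 : {y ∈ S | y ∈ A ∧ x ≠ y} = (S ∩ A).erase x := by
        ext y
        simp only [mem_filter, mem_erase, mem_inter]
        tauto
      rw [h2, card_erase_of_mem (mem_inter.2 ⟨hxS, hx⟩), Nat.cast_sub]
      · simp
      · exact Finset.card_pos.2 ⟨x, mem_inter.2 ⟨hxS, hx⟩⟩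
    · simp [hx]
  rw [sum_congr rfl h1, ← sum_filter, filter_mem_eq_inter, sum_const, nsmul_eq_mul]

lemma LinSpace.sum_prod (h : LinSpace P L) {A B : Finset α} (hA : A ⊆ P) (hB : B ⊆ P)
    (hAB : Disjoint A B) : ∑ m ∈ L, (#(m ∩ A) : ℝ) * #(m ∩ B) = #A * #B := by
  have h1 := h.sum_pairs (fun x y => if x ∈ A ∧ y ∈ B then (1 : ℝ) else 0)
    (by
      intro x
      rw [if_neg]
      exact fun hh => disjoint_left.1 hAB hh.1 hh.2)
  simp only [sum_ite_prod] at h1
  rw [h1, inter_eq_right.2 hA, inter_eq_right.2 hB]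

lemma LinSpace.sum_off (h : LinSpace P L) {A : Finset α} (hA : A ⊆ P) :
    ∑ m ∈ L, (#(m ∩ A) : ℝ) * (#(m ∩ A) - 1) = #A * (#A - 1) := by
  have h1 := h.sum_pairs (fun x y => if x ∈ A ∧ y ∈ A ∧ x ≠ y then (1 : ℝ) else 0)
    (by
      intro x
      rw [if_neg]
      exact fun hh => hh.2.2 rfl)
  simp only [sum_ite_off] at h1
  rw [h1, inter_eq_right.2 hA]

/-- All pairs. -/
lemma LinSpace.sum_card_mul (h : LinSpace P L) :
    ∑ m ∈ L, (#m : ℝ) * (#m - 1) = #P * (#P - 1) := by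
  have h1 := h.sum_off (Subset.refl P)
  rw [← h1]
  apply sum_congr rfl
  intro m hm
  rw [inter_eq_left.2 (h.sub m hm)]

/-- The lines through a point partition the other points. -/
lemma LinSpace.sum_star (h : LinSpace P L) {x : α} (hx : x ∈ P) :
    ∑ m ∈ L with x ∈ m, ((#m : ℝ) - 1) = #P - 1 := by
  have hd : Disjoint ({x} : Finset α) (P.erase x) := by
    rw [disjoint_singleton_left]
    simp
  have h1 := h.sum_prod (A := {x}) (B := P.erase x) (singleton_subset_iff.2 hx)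
    (erase_subset x P) hd
  rw [card_singleton, card_erase_of_mem hx, Nat.cast_sub (Finset.card_pos.2 ⟨x, hx⟩), Nat.cast_one,
    one_mul] at h1
  rw [← h1, sum_filter]
  apply sum_congr rfl
  intro m hm
  by_cases hxm : x ∈ m
  · rw [if_pos hxm, inter_singleton_of_mem hxm, card_singleton]
    have h2 : m ∩ P.erase x = m.erase x := by
      ext y
      simp only [mem_inter, mem_erase]
      constructor
      · rintro ⟨a, b, _⟩
        exact ⟨b, a⟩
      · rintro ⟨a, b⟩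
        exact ⟨b, a, h.sub m hm b⟩
    rw [h2, card_erase_of_mem hxm, Nat.cast_sub (Finset.card_pos.2 ⟨x, hxm⟩)]
    simp
  · rw [if_neg hxm, inter_singleton_of_notMem hxm]
    simp

/-- Two distinct lines share at most one point. -/
lemma LinSpace.card_inter_le (h : LinSpace P L) {m M : Finset α} (hm : m ∈ L) (hM : M ∈ L)
    (hne : m ≠ M) : #(m ∩ M) ≤ 1 := by
  rw [card_le_one]
  intro a ha b hb
  rw [mem_inter] at ha hb
  by_contra hab
  exact hne (h.uniq m hm M hM a b hab ha.1 hb.1 ha.2 hb.2)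

lemma LinSpace.lam_nonneg (x : α) : 0 ≤ lam L x :=
  sum_nonneg fun m _ => by positivity

lemma LinSpace.le_lam {M : Finset α} (hM : M ∈ L) {x : α} (hx : x ∈ M) :
    1 / (#M : ℝ) ≤ lam L x := by
  unfold lam
  exact single_le_sum (f := fun m : Finset α => (1 : ℝ) / #m) (fun m _ => by positivity)
    (mem_filter.2 ⟨hM, hx⟩)

lemma one_div_le_aux {k : ℝ} (hk : 2 ≤ k) : 1 / k ≤ (k - 1) / 2 := by
  rw [div_le_div_iff₀ (by linarith) (by norm_num)]
  nlinarith

lemma LinSpace.lam_le (h : LinSpace P L) {M : Finset α} (hM : M ∈ L) {x : α} (hx : x ∈ M) :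
    lam L x ≤ 1 / (#M : ℝ) + ((#P : ℝ) - #M) / 2 := by
  have h1 := h.sum_star (h.sub M hM hx)
  have h2 : {m ∈ L | x ∈ m} = insert M {m ∈ L | x ∈ m ∧ m ≠ M} := by
    ext m'
    simp only [mem_filter, mem_insert]
    constructor
    · rintro ⟨a, b⟩
      by_cases hmm : m' = M
      · exact Or.inl hmm
      · exact Or.inr ⟨a, b, hmm⟩
    · rintro (rfl | ⟨a, b, _⟩)
      · exact ⟨hM, hx⟩
      · exact ⟨a, b⟩
  unfold lam
  rw [h2, sum_insert (by simp)] at h1 ⊢
  have h3 : ∑ m ∈ L with (x ∈ m ∧ m ≠ M), (1 : ℝ) / #m ≤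
      ∑ m ∈ L with (x ∈ m ∧ m ≠ M), ((#m : ℝ) - 1) / 2 := by
    apply sum_le_sum
    intro m hm
    apply one_div_le_aux
    exact_mod_cast h.two m (mem_filter.1 hm).1
  rw [← sum_div] at h3
  linarith

lemma LinSpace.sum_lam_subset (h : LinSpace P L) (M : Finset α) (hM : M ⊆ P) :
    ∑ x ∈ M, lam L x = ∑ m ∈ L, (#(m ∩ M) : ℝ) / #m := by
  unfold lam
  have h1 : ∀ x ∈ M, ∑ m ∈ L with x ∈ m, (1 : ℝ) / #m =
      ∑ m ∈ L, if x ∈ m then (1 : ℝ) / #m else 0 := by
    intro x _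
    rw [sum_filter]
  rw [sum_congr rfl h1, sum_comm]
  apply sum_congr rfl
  intro m _
  rw [← sum_filter, sum_const, nsmul_eq_mul, mul_one_div, filter_mem_eq_inter, inter_comm]

end Pool.Agent.Lib.MP_359af5_co
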