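import Pool.Agent.Lib.MP_359af5_co.Basic

/-!
# Melchior's inequality for finite real planar point sets

Proof by a slope sweep: for every gap of the sweep the covering lines are separated by touching
lines.
-/

namespace Pool.Agent.Lib.MP_359af5_co

open Finset

section Count

lemma count_aux {ι : Type*} (C T : Finset ι) (s : ι → ℝ) (A B : Prop)
    (hinj : ∀ c ∈ C, ∀ c' ∈ C, s c = s c' → c = c')
    (hC : ∀ c ∈ C, (∃ t ∈ T, s c < s t ∧ ∀ c' ∈ C, s c < s c' → s t < s c') ∨
      (A ∧ ∀ c' ∈ C, s c' ≤ s c))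
    (h0 : (∃ t ∈ T, ∀ c' ∈ C, s t < s c') ∨ B) (a b : ℕ) (ha : A → 1 ≤ a) (hb : B → 1 ≤ b) :
    #C + 1 ≤ #T + a + b := by
  classical
  set D : Finset (ι ⊕ Bool) :=
    (T.image Sum.inl ∪ (if A then {Sum.inr true} else ∅)) ∪ (if B then {Sum.inr false} else ∅)
    with hD
  have hDcard : #D ≤ #T + a + b := by
    rw [hD]
    refine (card_union_le _ _).trans (add_le_add ((card_union_le _ _).trans
      (add_le_add card_image_le ?_)) ?_)
    · by_cases h : A
      · rw [if_pos h]; simpa using ha h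
      · rw [if_neg h]; simp
    · by_cases h : B
      · rw [if_pos h]; simpa using hb h
      · rw [if_neg h]; simp
  have hex : ∀ o : Option ι, o ∈ insertNone C → ∃ d ∈ D,
      (∀ c, o = some c → (∃ t, d = Sum.inl t ∧ s c < s t ∧ ∀ c' ∈ C, s c < s c' → s t < s c') ∨
        (d = Sum.inr true ∧ ∀ c' ∈ C, s c' ≤ s c)) ∧
      (o = none → (∃ t, d = Sum.inl t ∧ ∀ c' ∈ C, s t < s c') ∨ d = Sum.inr false) := by
    intro o ho
    cases o with
    | none =>
      rcases h0 with ⟨t, ht, h1⟩ | hB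
      · refine ⟨Sum.inl t, ?_, by simp, fun _ => Or.inl ⟨t, rfl, h1⟩⟩
        rw [hD]; simp [ht]
      · refine ⟨Sum.inr false, ?_, by simp, fun _ => Or.inr rfl⟩
        rw [hD]; simp [hB]
    | some c =>
      have hc : c ∈ C := by simpa using ho
      rcases hC c hc with ⟨t, ht, h1, h2⟩ | ⟨hA, h1⟩
      · refine ⟨Sum.inl t, ?_, ?_, by simp⟩
        · rw [hD]; simp [ht]
        · intro c' hc'
          obtain rfl : c = c' := by simpa using hc'
          exact Or.inl ⟨t, rfl, h1, h2⟩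
      · refine ⟨Sum.inr true, ?_, ?_, by simp⟩
        · rw [hD]; simp [hA]
        · intro c' hc'
          obtain rfl : c = c' := by simpa using hc'
          exact Or.inr ⟨rfl, h1⟩
  choose! f hfD hfs hfn using hex
  have hle : #(insertNone C) ≤ #D := by
    refine card_le_card_of_injOn f (fun o ho => hfD o ho) ?_
    intro o ho o' ho' heq
    have ho1 : o ∈ insertNone C := ho
    have ho2 : o' ∈ insertNone C := ho'
    cases o with
    | none =>
      cases o' with
      | none => rfl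
      | some c =>
        exfalso
        have hc : c ∈ C := by simpa using ho2
        rcases hfn none ho1 rfl with ⟨t, h1, h2⟩ | h1
        · rcases hfs (some c) ho2 c rfl with ⟨t', h3, h4, -⟩ | ⟨h3, -⟩
          · rw [← heq, h1] at h3
            obtain rfl : t = t' := by simpa using h3
            exact lt_irrefl _ ((h2 c hc).trans h4)
          · rw [← heq, h1] at h3; simp at h3
        · rcases hfs (some c) ho2 c rfl with ⟨t', h3, -, -⟩ | ⟨h3, -⟩
          · rw [← heq, h1] at h3; simp at h3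
          · rw [← heq, h1] at h3; simp at h3
    | some c =>
      have hc : c ∈ C := by simpa using ho1
      cases o' with
      | none =>
        exfalso
        rcases hfn none ho2 rfl with ⟨t, h1, h2⟩ | h1
        · rcases hfs (some c) ho1 c rfl with ⟨t', h3, h4, -⟩ | ⟨h3, -⟩
          · rw [heq, h1] at h3
            obtain rfl : t = t' := by simpa using h3
            exact lt_irrefl _ ((h2 c hc).trans h4)
          · rw [heq, h1] at h3; simp at h3
        · rcases hfs (some c) ho1 c rfl with ⟨t', h3, -, -⟩ | ⟨h3, -⟩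
          · rw [heq, h1] at h3; simp at h3
          · rw [heq, h1] at h3; simp at h3
      | some c' =>
        have hc' : c' ∈ C := by simpa using ho2
        have key : s c = s c' := by
          rcases hfs (some c) ho1 c rfl with ⟨t, h1, h2, h3⟩ | ⟨h1, h2⟩
          · rcases hfs (some c') ho2 c' rfl with ⟨t', h1', h2', h3'⟩ | ⟨h1', h2'⟩
            · rw [heq, h1'] at h1
              obtain rfl : t' = t := by simpa using h1
              rcases lt_trichotomy (s c) (s c') with h | h | h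
              · exact absurd (h3 c' hc' h) (not_lt.2 h2'.le)
              · exact h
              · exact absurd (h3' c hc h) (not_lt.2 h2.le)
            · rw [heq, h1'] at h1; simp at h1
          · rcases hfs (some c') ho2 c' rfl with ⟨t', h1', h2', h3'⟩ | ⟨h1', h2'⟩
            · rw [heq, h1'] at h1; simp at h1
            · exact le_antisymm (h2' c hc) (h2 c' hc')
        rw [hinj c hc c' hc' key]
  have hcard : #(insertNone C) = #C + 1 := by simp
  omega

lemma exists_rank {α : Type*} (c : Finset α) (f : α → ℝ)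
    (hinj : ∀ a ∈ c, ∀ b ∈ c, f a = f b → a = b) (k : ℕ) (h1 : 1 ≤ k) (h2 : k ≤ #c) :
    ∃ u ∈ c, #{b ∈ c | f b ≤ f u} = k := by
  classical
  set r : α → ℕ := fun u => #{b ∈ c | f b ≤ f u} with hr
  have hrinj : ∀ a ∈ c, ∀ b ∈ c, r a = r b → a = b := by
    have hlt : ∀ a ∈ c, ∀ b ∈ c, f a < f b → r a < r b := by
      intro a ha b hb hab
      refine card_lt_card ?_
      rw [ssubset_iff_of_subset]
      · refine ⟨b, by simp [hb], by simp [hb, not_le.2 hab]⟩
      · intro x hx
        rw [mem_filter] at hx ⊢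
        exact ⟨hx.1, hx.2.trans hab.le⟩
    intro a ha b hb hab
    rcases lt_trichotomy (f a) (f b) with h | h | h
    · exact absurd hab (hlt a ha b hb h).ne
    · exact hinj a ha b hb h
    · exact absurd hab (hlt b hb a ha h).ne'
  have hsub : c.image r ⊆ Icc 1 #c := by
    intro x hx
    rw [mem_image] at hx
    obtain ⟨u, hu, rfl⟩ := hx
    rw [mem_Icc]
    refine ⟨?_, card_filter_le _ _⟩
    rw [Nat.one_le_iff_ne_zero, ← Nat.pos_iff_ne_zero, card_pos]
    exact ⟨u, by simp [hu]⟩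
  have hcard : #(c.image r) = #c := card_image_of_injOn fun a ha b hb h => hrinj a ha b hb h
  have heq : c.image r = Icc 1 #c := by
    refine eq_of_subset_of_card_le hsub ?_
    rw [hcard]; simp
  have : k ∈ c.image r := by
    rw [heq, mem_Icc]; exact ⟨h1, h2⟩
  rw [mem_image] at this
  obtain ⟨u, hu, h⟩ := this
  exact ⟨u, hu, h⟩

/-- consecutive elements -/
lemma exists_consec {α : Type*} (c : Finset α) (f : α → ℝ)
    (hinj : ∀ a ∈ c, ∀ b ∈ c, f a = f b → a = b) (k : ℕ) (h1 : 1 ≤ k) (h2 : k < #c) :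
    ∃ u ∈ c, ∃ v ∈ c, f u < f v ∧ #{b ∈ c | f b ≤ f u} = k ∧ ∀ b ∈ c, f b ≤ f u ∨ f v ≤ f b := by
  classical
  obtain ⟨u, hu, hku⟩ := exists_rank c f hinj k h1 h2.le
  obtain ⟨v, hv, hkv⟩ := exists_rank c f hinj (k + 1) (by omega) h2
  have hmono : ∀ a b, f a ≤ f b → #{x ∈ c | f x ≤ f a} ≤ #{x ∈ c | f x ≤ f b} := by
    intro a b hab
    refine card_le_card fun x hx => ?_
    rw [mem_filter] at hx ⊢
    exact ⟨hx.1, hx.2.trans hab⟩
  have huv : f u < f v := by
    by_contra hcon
    have := hmono v u (not_lt.1 hcon)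
    omega
  refine ⟨u, hu, v, hv, huv, hku, fun b hb => ?_⟩
  by_contra hcon
  push Not at hcon
  -- u < b < v
  have hlt : ∀ a ∈ c, ∀ b ∈ c, f a < f b → #{x ∈ c | f x ≤ f a} < #{x ∈ c | f x ≤ f b} := by
    intro a ha b hb hab
    refine card_lt_card ?_
    rw [ssubset_iff_of_subset]
    · refine ⟨b, by simp [hb], by simp [hb, not_le.2 hab]⟩
    · intro x hx
      rw [mem_filter] at hx ⊢
      exact ⟨hx.1, hx.2.trans hab.le⟩
  have h3 := hlt u hu b hb hcon.1
  have h4 := hlt b hb v hv hcon.2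
  omega

end Count

variable {α : Type*} [DecidableEq α]

/-- Data of a sweep. -/
structure Sweep (P : Finset α) (L : Finset (Finset α)) (X Y : α → ℝ) (S : Finset α → ℝ) :
    Prop where
  lin : LinSpace P L
  xinj : ∀ a ∈ P, ∀ b ∈ P, X a = X b → a = b
  slope : ∀ m ∈ L, ∀ a ∈ m, ∀ c ∈ P, (c ∈ m ↔ Y c - Y a = S m * (X c - X a))
  nc : P ∉ L
  two : 2 ≤ #P

namespace Sweep

variable {P : Finset α} {L : Finset (Finset α)} {X Y : α → ℝ} {S : Finset α → ℝ}

/-- height -/
def ht (X Y : α → ℝ) (s : ℝ) (b : α) : ℝ := Y b - s * X b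

/-- number of points above a line -/
noncomputable def up (P : Finset α) (X Y : α → ℝ) (S : Finset α → ℝ) (m : Finset α) : ℕ :=
  #{b ∈ P | ∀ a ∈ m, ht X Y (S m) a < ht X Y (S m) b}

lemma ht_eq (h : Sweep P L X Y S) {m : Finset α} (hm : m ∈ L) {a : α} (ha : a ∈ m) {c : α}
    (hc : c ∈ P) : c ∈ m ↔ ht X Y (S m) c = ht X Y (S m) a := by
  rw [h.slope m hm a ha c hc]
  unfold ht
  constructor <;> intro h1 <;> linarith

lemma ht_sub (h : Sweep P L X Y S) {m : Finset α} (hm : m ∈ L) {a c : α} (ha : a ∈ m)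
    (hc : c ∈ m) (s : ℝ) : ht X Y s c - ht X Y s a = (S m - s) * (X c - X a) := by
  have := (h.slope m hm a ha c (h.lin.sub m hm hc)).1 hc
  unfold ht
  linarith

lemma up_eq (h : Sweep P L X Y S) {m : Finset α} (hm : m ∈ L) {a : α} (ha : a ∈ m) :
    up P X Y S m = #{b ∈ P | ht X Y (S m) a < ht X Y (S m) b} := by
  unfold up
  congr 1
  ext b
  rw [mem_filter, mem_filter]
  refine and_congr_right fun hb => ⟨fun h1 => h1 a ha, fun h1 a' ha' => ?_⟩
  rwa [(h.ht_eq hm ha (h.lin.sub m hm ha')).1 ha']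

lemma up_add (h : Sweep P L X Y S) {m : Finset α} (hm : m ∈ L) {a : α} (ha : a ∈ m) :
    up P X Y S m + #m = #{b ∈ P | ht X Y (S m) a ≤ ht X Y (S m) b} := by
  rw [h.up_eq hm ha, ← card_union_of_disjoint]
  · congr 1
    ext b
    rw [mem_union, mem_filter, mem_filter]
    constructor
    · rintro (⟨h1, h2⟩ | h1)
      · exact ⟨h1, h2.le⟩
      · have hb := h.lin.sub m hm h1
        exact ⟨hb, ((h.ht_eq hm ha hb).1 h1).ge⟩
    · rintro ⟨h1, h2⟩
      rcases h2.lt_or_eq with h3 | h3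
      · exact Or.inl ⟨h1, h3⟩
      · exact Or.inr ((h.ht_eq hm ha h1).2 h3.symm)
  · rw [disjoint_left]
    intro b hb hbm
    rw [mem_filter] at hb
    exact absurd ((h.ht_eq hm ha hb.1).1 hbm) hb.2.ne'

/-- A strictly separated top set is not covered. -/
lemma no_cover (h : Sweep P L X Y S) {m : Finset α} (hm : m ∈ L) {A : Finset α} (hA : A ⊆ P)
    (hsep : ∀ a ∈ A, ∀ b ∈ P, b ∉ A → ht X Y (S m) b < ht X Y (S m) a)
    (h1 : up P X Y S m < #A) (h2 : #A < up P X Y S m + #m) : False := by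
  obtain ⟨x, hx⟩ : m.Nonempty := by
    rw [← card_pos]; have := h.lin.two m hm; omega
  by_cases hxA : x ∈ A
  · have : up P X Y S m + #m ≤ #A := by
      rw [h.up_add hm hx]
      refine card_le_card fun b hb => ?_
      rw [mem_filter] at hb
      by_contra hbA
      exact absurd (hsep x hxA b hb.1 hbA) (not_lt.2 hb.2)
    omega
  · have : #A ≤ up P X Y S m := by
      rw [h.up_eq hm hx]
      refine card_le_card fun b hb => ?_
      rw [mem_filter]
      exact ⟨hA hb, hsep b hb x (h.lin.sub m hm hx) hxA⟩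
    omega

lemma touch_up (h : Sweep P L X Y S) {m : Finset α} (hm : m ∈ L) {A : Finset α} (hA : A ⊆ P)
    {u : α} (hu : u ∈ m) (h1 : ∀ a ∈ A, ht X Y (S m) u ≤ ht X Y (S m) a)
    (h2 : ∀ b ∈ P, b ∉ A → ht X Y (S m) b < ht X Y (S m) u) :
    up P X Y S m + #m = #A := by
  rw [h.up_add hm hu]
  congr 1
  ext b
  rw [mem_filter]
  constructor
  · rintro ⟨hb, h3⟩
    by_contra hbA
    exact absurd (h2 b hb hbA) (not_lt.2 h3)
  · intro hb
    exact ⟨hA hb, h1 b hb⟩

lemma touch_down (h : Sweep P L X Y S) {m : Finset α} (hm : m ∈ L) {A : Finset α} (hA : A ⊆ P)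
    {v : α} (hv : v ∈ m) (h1 : ∀ a ∈ A, ht X Y (S m) v < ht X Y (S m) a)
    (h2 : ∀ b ∈ P, b ∉ A → ht X Y (S m) b ≤ ht X Y (S m) v) :
    up P X Y S m = #A := by
  rw [h.up_eq hm hv]
  congr 1
  ext b
  rw [mem_filter]
  constructor
  · rintro ⟨hb, h3⟩
    by_contra hbA
    exact absurd (h2 b hb hbA) (not_le.2 h3)
  · intro hb
    exact ⟨hA hb, h1 b hb⟩

lemma eq_of_slope (h : Sweep P L X Y S) {m m' : Finset α} (hm : m ∈ L) (hm' : m' ∈ L) {u : α}
    (hu : u ∈ m) (hu' : u ∈ m') (hs : S m = S m') : m = m' := by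
  ext c
  constructor
  · intro hc
    have hcP := h.lin.sub m hm hc
    rw [h.slope m' hm' u hu' c hcP, ← hs]
    exact (h.slope m hm u hu c hcP).1 hc
  · intro hc
    have hcP := h.lin.sub m' hm' hc
    rw [h.slope m hm u hu c hcP, hs]
    exact (h.slope m' hm' u hu' c hcP).1 hc

/-- Covering lines of a gap. -/
noncomputable def cov (P : Finset α) (L : Finset (Finset α)) (X Y : α → ℝ) (S : Finset α → ℝ)
    (j : ℕ) : Finset (Finset α) :=
  {m ∈ L | up P X Y S m < j ∧ j < up P X Y S m + #m}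

/-- Touching lines of a gap. -/
noncomputable def tou (P : Finset α) (L : Finset (Finset α)) (X Y : α → ℝ) (S : Finset α → ℝ)
    (j : ℕ) : Finset (Finset α) :=
  {m ∈ L | up P X Y S m = j ∨ up P X Y S m + #m = j}

/-- The `i`-th and `i+1`-st points have their line as steepest line. -/
def APred (P : Finset α) (L : Finset (Finset α)) (X : α → ℝ) (S : Finset α → ℝ)
    (i : ℕ) : Prop :=
  ∃ u ∈ P, ∃ v ∈ P, X u < X v ∧ #{b ∈ P | X b ≤ X u} = i ∧ (∀ b ∈ P, X b ≤ X u ∨ X v ≤ X b) ∧
    ∃ m₀ ∈ L, u ∈ m₀ ∧ v ∈ m₀ ∧ ∀ m ∈ L, (u ∈ m ∨ v ∈ m) → S m ≤ S m₀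

/-- The `i`-th and `i+1`-st points have their line as least steep line. -/
def BPred (P : Finset α) (L : Finset (Finset α)) (X : α → ℝ) (S : Finset α → ℝ)
    (i : ℕ) : Prop :=
  ∃ u ∈ P, ∃ v ∈ P, X u < X v ∧ #{b ∈ P | X b ≤ X u} = i ∧ (∀ b ∈ P, X b ≤ X u ∨ X v ≤ X b) ∧
    ∃ m₀ ∈ L, u ∈ m₀ ∧ v ∈ m₀ ∧ ∀ m ∈ L, (u ∈ m ∨ v ∈ m) → S m₀ ≤ S m

lemma stepC (h : Sweep P L X Y S) {j : ℕ} {c : Finset α} (hc : c ∈ cov P L X Y S j) :
    (∃ t ∈ tou P L X Y S j, S c < S t ∧ ∀ c' ∈ cov P L X Y S j, S c < S c' → S t < S c') ∨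
      (APred P L X S j ∧ ∀ c' ∈ cov P L X Y S j, S c' ≤ S c) := by
  unfold cov at hc
  rw [mem_filter] at hc
  obtain ⟨hcL, hj1, hj2⟩ := hc
  have hcP := h.lin.sub c hcL
  obtain ⟨u, hu, v, hv, huv, hcard, hcons⟩ := exists_consec c X
    (fun a ha b hb => h.xinj a (hcP ha) b (hcP hb)) (j - up P X Y S c) (by omega) (by omega)
  set A : Finset α := {b ∈ P | ht X Y (S c) u < ht X Y (S c) b} ∪ {b ∈ c | X b ≤ X u} with hAdef
  have hAP : A ⊆ P := by
    intro b hb
    rw [hAdef, mem_union, mem_filter, mem_filter] at hb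
    rcases hb with hb | hb
    · exact hb.1
    · exact hcP hb.1
  have hAcard : #A = j := by
    rw [hAdef, card_union_of_disjoint, ← h.up_eq hcL hu, hcard]
    · omega
    · rw [disjoint_left]
      intro b hb hb'
      rw [mem_filter] at hb hb'
      exact absurd ((h.ht_eq hcL hu hb.1).1 hb'.1) hb.2.ne'
  have hline : ∀ a ∈ P, ∀ b ∈ P, a ≠ b → ∃ m ∈ L, a ∈ m ∧ b ∈ m := h.lin.cover
  -- separation
  have hs1 : ∀ s, S c ≤ s → (∀ m ∈ L, (u ∈ m ∨ v ∈ m) → S c < S m → s ≤ S m) →
      ∀ a ∈ A, ht X Y s u ≤ ht X Y s a := by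
    intro s hs hm a ha
    rw [hAdef, mem_union, mem_filter, mem_filter] at ha
    rcases ha with ⟨haP, ha⟩ | ⟨hac, ha⟩
    · have hne : u ≠ a := by rintro rfl; exact lt_irrefl _ ha
      obtain ⟨m, hmL, hum, ham⟩ := hline u (hcP hu) a haP hne
      have h1 := h.ht_sub hmL hum ham (S c)
      have h2 := h.ht_sub hmL hum ham s
      have h3 : 0 < (S m - S c) * (X a - X u) := by rw [← h1]; linarith
      rcases lt_or_ge (S c) (S m) with h4 | h4
      · have h5 := hm m hmL (Or.inl hum) h4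
        have h6 : 0 < X a - X u := by
          by_contra hcon
          have := mul_nonneg (sub_nonneg.2 h4.le) (neg_nonneg.2 (not_lt.1 hcon))
          linarith
        have := mul_nonneg (sub_nonneg.2 h5) h6.le
        linarith
      · have h6 : X a - X u < 0 := by
          by_contra hcon
          have := mul_nonneg (sub_nonneg.2 h4) (not_lt.1 hcon)
          linarith
        have h7 : S m - s ≤ 0 := by linarith
        have := mul_nonneg_of_nonpos_of_nonpos h7 h6.le
        linarith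
    · have h2 := h.ht_sub hcL hu hac s
      have := mul_nonneg_of_nonpos_of_nonpos (sub_nonpos.2 hs) (sub_nonpos.2 ha)
      linarith
  have hs2 : ∀ s, S c ≤ s → (∀ m ∈ L, (u ∈ m ∨ v ∈ m) → S c < S m → s ≤ S m) →
      ∀ b ∈ P, b ∉ A → ht X Y s b ≤ ht X Y s v := by
    intro s hs hm b hb hbA
    rw [hAdef, mem_union, mem_filter, mem_filter, not_or, not_and, not_and] at hbA
    by_cases hbc : b ∈ c
    · have h1 := hbA.2 hbc
      have h2 : X v ≤ X b := (hcons b hbc).resolve_left h1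
      have h3 := h.ht_sub hcL hv hbc s
      have := mul_nonneg (sub_nonneg.2 hs) (sub_nonneg.2 h2)
      linarith
    · have h1 := not_lt.1 (hbA.1 hb)
      have hvu := (h.ht_eq hcL hu (hcP hv)).1 hv
      have h1' : ht X Y (S c) b < ht X Y (S c) v := by
        rw [hvu]
        refine lt_of_le_of_ne h1 fun hcon => hbc ?_
        exact (h.ht_eq hcL hu hb).2 hcon
      have hne : v ≠ b := by rintro rfl; exact hbc hv
      obtain ⟨m, hmL, hvm, hbm⟩ := hline v (hcP hv) b hb hne
      have h2 := h.ht_sub hmL hvm hbm (S c)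
      have h3 := h.ht_sub hmL hvm hbm s
      have h4 : (S m - S c) * (X b - X v) < 0 := by rw [← h2]; linarith
      rcases lt_or_ge (S c) (S m) with h5 | h5
      · have h6 := hm m hmL (Or.inr hvm) h5
        have h7 : X b - X v < 0 := by
          by_contra hcon
          have := mul_nonneg (sub_nonneg.2 h5.le) (not_lt.1 hcon)
          linarith
        have := mul_nonneg (sub_nonneg.2 h6) (neg_nonneg.2 h7.le)
        linarith
      · have h7 : 0 < X b - X v := by
          by_contra hcon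
          have := mul_nonneg_of_nonpos_of_nonpos (sub_nonpos.2 h5) (not_lt.1 hcon)
          linarith
        have h8 : 0 ≤ s - S m := by linarith
        have := mul_nonneg h8 h7.le
        linarith
  have hs3 : ∀ s, S c < s → ht X Y s v < ht X Y s u := by
    intro s hs
    have h1 := h.ht_sub hcL hu hv s
    have := mul_pos (sub_pos.2 hs) (sub_pos.2 huv)
    linarith
  have hncov : ∀ c' ∈ cov P L X Y S j, S c < S c' →
      (∀ m ∈ L, (u ∈ m ∨ v ∈ m) → S c < S m → S c' ≤ S m) → False := by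
    intro c' hc' hlt hm
    unfold cov at hc'
    rw [mem_filter] at hc'
    refine h.no_cover hc'.1 hAP ?_ (by omega) (by omega)
    intro a ha b hb hbA
    have h1 := hs1 (S c') hlt.le hm a ha
    have h2 := hs2 (S c') hlt.le hm b hb hbA
    have h3 := hs3 (S c') hlt
    linarith
  by_cases hW : ∃ m ∈ L, (u ∈ m ∨ v ∈ m) ∧ S c < S m
  · left
    obtain ⟨t, ht1, ht2⟩ := exists_min_image {m ∈ L | (u ∈ m ∨ v ∈ m) ∧ S c < S m} S (by
      obtain ⟨m, hm1, hm2⟩ := hW
      exact ⟨m, by rw [mem_filter]; exact ⟨hm1, hm2⟩⟩)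
    rw [mem_filter] at ht1
    obtain ⟨htL, htuv, htS⟩ := ht1
    have hmin : ∀ m ∈ L, (u ∈ m ∨ v ∈ m) → S c < S m → S t ≤ S m := fun m hm h1 h2 =>
      ht2 m (by rw [mem_filter]; exact ⟨hm, h1, h2⟩)
    refine ⟨t, ?_, htS, fun c' hc' hlt => ?_⟩
    · unfold tou
      rw [mem_filter]
      refine ⟨htL, ?_⟩
      rcases htuv with hut | hvt
      · right
        rw [h.touch_up htL hAP hut (hs1 _ htS.le hmin) fun b hb hbA =>
          (hs2 _ htS.le hmin b hb hbA).trans_lt (hs3 _ htS), hAcard]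
      · left
        rw [h.touch_down htL hAP hvt (fun a ha => (hs3 _ htS).trans_le
          (hs1 _ htS.le hmin a ha)) (hs2 _ htS.le hmin), hAcard]
    · by_contra hcon
      exact hncov c' hc' hlt fun m hm h1 h2 => (not_lt.1 hcon).trans (hmin m hm h1 h2)
  · right
    push Not at hW
    have hW' : ∀ m ∈ L, (u ∈ m ∨ v ∈ m) → S m ≤ S c := hW
    constructor
    · have hset : {b ∈ P | X b ≤ X u} = A := by
        ext b
        rw [mem_filter, hAdef, mem_union, mem_filter, mem_filter]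
        constructor
        · rintro ⟨hb, hbu⟩
          by_cases hub : u = b
          · subst hub; exact Or.inr ⟨hu, le_rfl⟩
          obtain ⟨m, hmL, hum, hbm⟩ := hline u (hcP hu) b hb hub
          rcases (hW' m hmL (Or.inl hum)).lt_or_eq with h1 | h1
          · left
            refine ⟨hb, ?_⟩
            have h2 := h.ht_sub hmL hum hbm (S c)
            have h3 : X b < X u := lt_of_le_of_ne hbu fun hcon =>
              hub (h.xinj _ hb _ (hcP hu) hcon).symm
            have := mul_pos_of_neg_of_neg (sub_neg.2 h1) (sub_neg.2 h3)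
            linarith
          · right
            have := h.eq_of_slope hmL hcL hum hu h1
            subst this
            exact ⟨hbm, hbu⟩
        · rintro (⟨hb, h1⟩ | ⟨hb, h1⟩)
          · refine ⟨hb, ?_⟩
            have hub : u ≠ b := by rintro rfl; exact lt_irrefl _ h1
            obtain ⟨m, hmL, hum, hbm⟩ := hline u (hcP hu) b hb hub
            have h2 := h.ht_sub hmL hum hbm (S c)
            by_contra hcon
            have := mul_nonneg (sub_nonneg.2 (hW' m hmL (Or.inl hum)))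
              (sub_nonneg.2 (not_le.1 hcon).le)
            linarith
          · exact ⟨hcP hb, h1⟩
      refine ⟨u, hcP hu, v, hcP hv, huv, by rw [hset, hAcard], ?_, c, hcL, hu, hv, hW'⟩
      intro b hb
      by_contra hcon
      push Not at hcon
      have hbc : b ∉ c := fun hbc => by
        rcases hcons b hbc with h1 | h1
        · exact absurd h1 (not_le.2 hcon.1)
        · exact absurd h1 (not_le.2 hcon.2)
      have hub : u ≠ b := by rintro rfl; exact hbc hu
      have hvb : v ≠ b := by rintro rfl; exact hbc hv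
      obtain ⟨m, hmL, hum, hbm⟩ := hline u (hcP hu) b hb hub
      obtain ⟨m', hmL', hvm', hbm'⟩ := hline v (hcP hv) b hb hvb
      have h1 : S m < S c := lt_of_le_of_ne (hW' m hmL (Or.inl hum)) fun hcon' => by
        have := h.eq_of_slope hmL hcL hum hu hcon'
        subst this; exact hbc hbm
      have h1' : S m' < S c := lt_of_le_of_ne (hW' m' hmL' (Or.inr hvm')) fun hcon' => by
        have := h.eq_of_slope hmL' hcL hvm' hv hcon'
        subst this; exact hbc hbm'
      have h2 := h.ht_sub hmL hum hbm (S c)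
      have h3 := h.ht_sub hmL' hvm' hbm' (S c)
      have h4 := (h.ht_eq hcL hu (hcP hv)).1 hv
      have h5 := mul_pos (sub_pos.2 h1) (sub_pos.2 hcon.1)
      have h6 := mul_pos (sub_pos.2 h1') (sub_pos.2 hcon.2)
      nlinarith
    · intro c' hc'
      by_contra hcon
      exact hncov c' hc' (not_le.1 hcon) fun m hm h1 h2 => absurd (hW' m hm h1) (not_le.2 h2)

lemma step0 (h : Sweep P L X Y S) {j : ℕ} (hj1 : 1 ≤ j) (hj2 : j < #P) :
    (∃ t ∈ tou P L X Y S j, ∀ c' ∈ cov P L X Y S j, S t < S c') ∨ BPred P L X S (#P - j) := by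
  obtain ⟨w, hw, z, hz, hwz, hcard, hcons⟩ := exists_consec P X h.xinj (#P - j)
    (by omega) (by omega)
  set A : Finset α := {b ∈ P | X z ≤ X b} with hAdef
  have hAP : A ⊆ P := filter_subset _ _
  have hAcard : #A = j := by
    have h1 : #{b ∈ P | X b ≤ X w} + #{b ∈ P | ¬ X b ≤ X w} = #P :=
      card_filter_add_card_filter_not _
    have h2 : {b ∈ P | ¬ X b ≤ X w} = A := by
      ext b
      rw [mem_filter, hAdef, mem_filter]
      refine and_congr_right fun hb => ⟨fun h3 => (hcons b hb).resolve_left h3, fun h3 => ?_⟩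
      exact not_le.2 (hwz.trans_le h3)
    rw [h2] at h1
    omega
  have hline : ∀ a ∈ P, ∀ b ∈ P, a ≠ b → ∃ m ∈ L, a ∈ m ∧ b ∈ m := h.lin.cover
  have hne : z ≠ w := by rintro rfl; exact lt_irrefl _ hwz
  obtain ⟨m₀, hm₀, hzm₀, hwm₀⟩ := hline z hz w hw hne
  obtain ⟨t, ht1, ht2⟩ := exists_min_image {m ∈ L | z ∈ m ∨ w ∈ m} S
    ⟨m₀, by rw [mem_filter]; exact ⟨hm₀, Or.inl hzm₀⟩⟩
  rw [mem_filter] at ht1
  obtain ⟨htL, htzw⟩ := ht1
  have hmin : ∀ m ∈ L, (z ∈ m ∨ w ∈ m) → S t ≤ S m := fun m hm h1 =>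
    ht2 m (by rw [mem_filter]; exact ⟨hm, h1⟩)
  by_cases hB : S m₀ ≤ S t
  · right
    exact ⟨w, hw, z, hz, hwz, hcard, hcons, m₀, hm₀, hwm₀, hzm₀, fun m hm h1 =>
      hB.trans (hmin m hm h1.symm)⟩
  · left
    push Not at hB
    have hs1 : ∀ s, s ≤ S t → ∀ a ∈ A, ht X Y s z ≤ ht X Y s a := by
      intro s hs a ha
      rw [hAdef, mem_filter] at ha
      by_cases hza : z = a
      · rw [hza]
      obtain ⟨m, hmL, hzm, ham⟩ := hline z hz a ha.1 hza
      have h1 := h.ht_sub hmL hzm ham s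
      have := mul_nonneg (sub_nonneg.2 (hs.trans (hmin m hmL (Or.inl hzm)))) (sub_nonneg.2 ha.2)
      linarith
    have hs2 : ∀ s, s ≤ S t → ∀ b ∈ P, b ∉ A → ht X Y s b ≤ ht X Y s w := by
      intro s hs b hb hbA
      rw [hAdef, mem_filter, not_and] at hbA
      have hbw : X b ≤ X w := (hcons b hb).resolve_right (hbA hb)
      by_cases hwb : w = b
      · rw [hwb]
      obtain ⟨m, hmL, hwm, hbm⟩ := hline w hw b hb hwb
      have h1 := h.ht_sub hmL hwm hbm s
      have := mul_nonneg (sub_nonneg.2 (hs.trans (hmin m hmL (Or.inr hwm)))) (sub_nonneg.2 hbw)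
      linarith
    have hs3 : ∀ s, s ≤ S t → ht X Y s w < ht X Y s z := by
      intro s hs
      have h1 := h.ht_sub hm₀ hwm₀ hzm₀ s
      have := mul_pos (sub_pos.2 (hs.trans_lt hB)) (sub_pos.2 hwz)
      linarith
    refine ⟨t, ?_, fun c' hc' => ?_⟩
    · unfold tou
      rw [mem_filter]
      refine ⟨htL, ?_⟩
      rcases htzw with hzt | hwt
      · right
        rw [h.touch_up htL hAP hzt (hs1 _ le_rfl) fun b hb hbA =>
          (hs2 _ le_rfl b hb hbA).trans_lt (hs3 _ le_rfl), hAcard]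
      · left
        rw [h.touch_down htL hAP hwt (fun a ha => (hs3 _ le_rfl).trans_le
          (hs1 _ le_rfl a ha)) (hs2 _ le_rfl), hAcard]
    · by_contra hcon
      rw [not_lt] at hcon
      unfold cov at hc'
      rw [mem_filter] at hc'
      refine h.no_cover hc'.1 hAP ?_ (by omega) (by omega)
      intro a ha b hb hbA
      have h1 := hs1 (S c') hcon a ha
      have h2 := hs2 (S c') hcon b hb hbA
      have h3 := hs3 (S c') hcon
      linarith

lemma cov_inj (h : Sweep P L X Y S) {j : ℕ} {c c' : Finset α} (hc : c ∈ cov P L X Y S j)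
    (hc' : c' ∈ cov P L X Y S j) (hs : S c = S c') : c = c' := by
  unfold cov at hc hc'
  rw [mem_filter] at hc hc'
  obtain ⟨hcL, h1, h2⟩ := hc
  obtain ⟨hcL', h1', h2'⟩ := hc'
  obtain ⟨x, hx⟩ : c.Nonempty := by rw [← card_pos]; have := h.lin.two c hcL; omega
  obtain ⟨x', hx'⟩ : c'.Nonempty := by rw [← card_pos]; have := h.lin.two c' hcL'; omega
  have hxP := h.lin.sub c hcL hx
  have hxP' := h.lin.sub c' hcL' hx'
  rcases lt_trichotomy (ht X Y (S c) x) (ht X Y (S c) x') with h3 | h3 | h3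
  · exfalso
    have : up P X Y S c' + #c' ≤ up P X Y S c := by
      rw [h.up_add hcL' hx', h.up_eq hcL hx]
      refine card_le_card fun b hb => ?_
      rw [mem_filter] at hb ⊢
      rw [← hs] at hb
      exact ⟨hb.1, h3.trans_le hb.2⟩
    omega
  · have h4 : x' ∈ c := (h.ht_eq hcL hx hxP').2 h3.symm
    exact h.eq_of_slope hcL hcL' h4 hx' hs
  · exfalso
    have : up P X Y S c + #c ≤ up P X Y S c' := by
      rw [h.up_add hcL hx, h.up_eq hcL' hx']
      refine card_le_card fun b hb => ?_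
      rw [mem_filter] at hb ⊢
      rw [hs] at h3 hb
      exact ⟨hb.1, h3.trans_le hb.2⟩
    omega

lemma gap (h : Sweep P L X Y S) {j : ℕ} (hj1 : 1 ≤ j) (hj2 : j < #P) (a b : ℕ)
    (ha : APred P L X S j → 1 ≤ a) (hb : BPred P L X S (#P - j) → 1 ≤ b) :
    #(cov P L X Y S j) + 1 ≤ #(tou P L X Y S j) + a + b :=
  count_aux _ _ S _ _ (fun _ hc _ hc' hs => h.cov_inj hc hc' hs) (fun _ hc => h.stepC hc)
    (h.step0 hj1 hj2) a b ha hb

/-- Not all lines through a point have the same slope. -/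
lemma not_all (h : Sweep P L X Y S) {u : α} (hu : u ∈ P) {m₀ : Finset α} (hm₀ : m₀ ∈ L)
    (hum₀ : u ∈ m₀) (hall : ∀ m ∈ L, u ∈ m → S m = S m₀) : False := by
  apply h.nc
  have : P = m₀ := by
    refine Subset.antisymm (fun b hb => ?_) (h.lin.sub m₀ hm₀)
    by_cases hub : u = b
    · subst hub; exact hum₀
    obtain ⟨m, hmL, hum, hbm⟩ := h.lin.cover u hu b hb hub
    have := h.eq_of_slope hmL hm₀ hum hum₀ (hall m hmL hum)
    subst this
    exact hbm
  rw [this]
  exact hm₀

lemma not_both (h : Sweep P L X Y S) {i : ℕ} (hA : APred P L X S i) (hB : BPred P L X S i) :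
    False := by
  obtain ⟨u, hu, v, hv, huv, hc, hcons, m₀, hm₀, hum₀, hvm₀, hmax⟩ := hA
  obtain ⟨u', hu', v', hv', huv', hc', hcons', m₁, hm₁, hum₁, hvm₁, hmin⟩ := hB
  have huu : u = u' := by
    have hlt : ∀ a ∈ P, ∀ b ∈ P, X a < X b → #{x ∈ P | X x ≤ X a} < #{x ∈ P | X x ≤ X b} := by
      intro a ha b hb hab
      refine card_lt_card ?_
      rw [ssubset_iff_of_subset]
      · refine ⟨b, by simp [hb], by simp [hb, not_le.2 hab]⟩
      · intro x hx
        rw [mem_filter] at hx ⊢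
        exact ⟨hx.1, hx.2.trans hab.le⟩
    rcases lt_trichotomy (X u) (X u') with h1 | h1 | h1
    · have := hlt u hu u' hu' h1; omega
    · exact h.xinj u hu u' hu' h1
    · have := hlt u' hu' u hu h1; omega
  subst huu
  have hvv : v = v' := by
    apply h.xinj v hv v' hv'
    have h1 := (hcons v' hv').resolve_left (not_le.2 huv')
    have h2 := (hcons' v hv).resolve_left (not_le.2 huv)
    linarith
  subst hvv
  have hmm : m₀ = m₁ := h.lin.uniq m₀ hm₀ m₁ hm₁ u v (by rintro rfl; exact lt_irrefl _ huv)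
    hum₀ hvm₀ hum₁ hvm₁
  subst hmm
  exact h.not_all hu hm₀ hum₀ fun m hm hum =>
    le_antisymm (hmax m hm (Or.inl hum)) (hmin m hm (Or.inl hum))

lemma up_le (h : Sweep P L X Y S) {m : Finset α} (hm : m ∈ L) :
    up P X Y S m + #m ≤ #P := by
  obtain ⟨x, hx⟩ : m.Nonempty := by rw [← card_pos]; have := h.lin.two m hm; omega
  rw [h.up_add hm hx]
  exact card_filter_le _ _

lemma hull (h : Sweep P L X Y S) :
    3 ≤ #{m ∈ L | up P X Y S m = 0} + #{m ∈ L | up P X Y S m + #m = #P} := by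
  have hPne : P.Nonempty := by rw [← card_pos]; have := h.two; omega
  obtain ⟨a, haP, hamin⟩ := exists_min_image P X hPne
  obtain ⟨b, hbP, hbmax⟩ := exists_max_image P X hPne
  have hab : a ≠ b := by
    rintro rfl
    have h1 : ∀ x ∈ P, x = a := fun x hx => h.xinj x hx a haP
      (le_antisymm (hbmax x hx) (hamin x hx))
    have h2 : #P ≤ 1 := card_le_one.2 fun x hx y hy => by rw [h1 x hx, h1 y hy]
    have := h.two
    omega
  obtain ⟨m₀, hm₀, ham₀, hbm₀⟩ := h.lin.cover a haP b hbP hab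
  have hneb : (L.filter (fun m => b ∈ m)).Nonempty := ⟨m₀, by rw [mem_filter]; exact ⟨hm₀, hbm₀⟩⟩
  have hnea : (L.filter (fun m => a ∈ m)).Nonempty := ⟨m₀, by rw [mem_filter]; exact ⟨hm₀, ham₀⟩⟩
  obtain ⟨m1, hm1, hm1min⟩ := exists_min_image _ S hneb
  obtain ⟨m2, hm2, hm2max⟩ := exists_max_image _ S hneb
  obtain ⟨m3, hm3, hm3max⟩ := exists_max_image _ S hnea
  obtain ⟨m4, hm4, hm4min⟩ := exists_min_image _ S hnea
  rw [mem_filter] at hm1 hm2 hm3 hm4
  have hmin1 : ∀ m ∈ L, b ∈ m → S m1 ≤ S m := fun m hm hb => hm1min m (by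
    rw [mem_filter]; exact ⟨hm, hb⟩)
  have hmax2 : ∀ m ∈ L, b ∈ m → S m ≤ S m2 := fun m hm hb => hm2max m (by
    rw [mem_filter]; exact ⟨hm, hb⟩)
  have hmax3 : ∀ m ∈ L, a ∈ m → S m ≤ S m3 := fun m hm hb => hm3max m (by
    rw [mem_filter]; exact ⟨hm, hb⟩)
  have hmin4 : ∀ m ∈ L, a ∈ m → S m4 ≤ S m := fun m hm hb => hm4min m (by
    rw [mem_filter]; exact ⟨hm, hb⟩)
  have hup0 : ∀ m ∈ L, ∀ x ∈ m, (∀ w ∈ P, ht X Y (S m) w ≤ ht X Y (S m) x) →
      up P X Y S m = 0 := by
    intro m hm x hx hall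
    rw [h.up_eq hm hx, card_eq_zero, filter_eq_empty_iff]
    intro w hw
    exact not_lt.2 (hall w hw)
  have hdown : ∀ m ∈ L, ∀ x ∈ m, (∀ w ∈ P, ht X Y (S m) x ≤ ht X Y (S m) w) →
      up P X Y S m + #m = #P := by
    intro m hm x hx hall
    rw [h.up_add hm hx, filter_true_of_mem hall]
  have h1 : up P X Y S m1 = 0 := by
    refine hup0 m1 hm1.1 b hm1.2 fun w hw => ?_
    by_cases hwb : b = w
    · rw [hwb]
    obtain ⟨m, hmL, hbm, hwm⟩ := h.lin.cover b hbP w hw hwb
    have e := h.ht_sub hmL hbm hwm (S m1)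
    have := mul_nonneg (sub_nonneg.2 (hmin1 m hmL hbm)) (sub_nonneg.2 (hbmax w hw))
    linarith
  have h2 : up P X Y S m2 + #m2 = #P := by
    refine hdown m2 hm2.1 b hm2.2 fun w hw => ?_
    by_cases hwb : b = w
    · rw [hwb]
    obtain ⟨m, hmL, hbm, hwm⟩ := h.lin.cover b hbP w hw hwb
    have e := h.ht_sub hmL hbm hwm (S m2)
    have := mul_nonneg (sub_nonneg.2 (hmax2 m hmL hbm)) (sub_nonneg.2 (hbmax w hw))
    linarith
  have h3 : up P X Y S m3 = 0 := by
    refine hup0 m3 hm3.1 a hm3.2 fun w hw => ?_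
    by_cases hwa : a = w
    · rw [hwa]
    obtain ⟨m, hmL, ham, hwm⟩ := h.lin.cover a haP w hw hwa
    have e := h.ht_sub hmL ham hwm (S m3)
    have := mul_nonneg (sub_nonneg.2 (hmax3 m hmL ham)) (sub_nonneg.2 (hamin w hw))
    linarith
  have h4 : up P X Y S m4 + #m4 = #P := by
    refine hdown m4 hm4.1 a hm4.2 fun w hw => ?_
    by_cases hwa : a = w
    · rw [hwa]
    obtain ⟨m, hmL, ham, hwm⟩ := h.lin.cover a haP w hw hwa
    have e := h.ht_sub hmL ham hwm (S m4)
    have := mul_nonneg (sub_nonneg.2 (hmin4 m hmL ham)) (sub_nonneg.2 (hamin w hw))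
    linarith
  have hm12 : m1 ≠ m2 := by
    rintro rfl
    exact h.not_all hbP hm1.1 hm1.2 fun m hm hbm => le_antisymm (hmax2 m hm hbm) (hmin1 m hm hbm)
  have hm34 : m3 ≠ m4 := by
    rintro rfl
    exact h.not_all haP hm3.1 hm3.2 fun m hm ham => le_antisymm (hmax3 m hm ham) (hmin4 m hm ham)
  by_cases h13 : m1 = m3
  · have hm24 : m2 ≠ m4 := by
      rintro rfl
      apply hm12
      refine h.lin.uniq m1 hm1.1 m2 hm2.1 a b hab ?_ hm1.2 hm4.2 hm2.2
      rw [h13]; exact hm3.2
    have e1 : 1 ≤ #{m ∈ L | up P X Y S m = 0} := by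
      rw [Nat.one_le_iff_ne_zero, ← Nat.pos_iff_ne_zero, card_pos]
      exact ⟨m1, by rw [mem_filter]; exact ⟨hm1.1, h1⟩⟩
    have e2 : 2 ≤ #{m ∈ L | up P X Y S m + #m = #P} := by
      have : ({m2, m4} : Finset (Finset α)) ⊆ {m ∈ L | up P X Y S m + #m = #P} := by
        intro m hm
        rw [mem_insert, mem_singleton] at hm
        rw [mem_filter]
        rcases hm with rfl | rfl
        · exact ⟨hm2.1, h2⟩
        · exact ⟨hm4.1, h4⟩
      have := card_le_card this
      rwa [card_pair hm24] at this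
    omega
  · have e1 : 1 ≤ #{m ∈ L | up P X Y S m + #m = #P} := by
      rw [Nat.one_le_iff_ne_zero, ← Nat.pos_iff_ne_zero, card_pos]
      exact ⟨m2, by rw [mem_filter]; exact ⟨hm2.1, h2⟩⟩
    have e2 : 2 ≤ #{m ∈ L | up P X Y S m = 0} := by
      have : ({m1, m3} : Finset (Finset α)) ⊆ {m ∈ L | up P X Y S m = 0} := by
        intro m hm
        rw [mem_insert, mem_singleton] at hm
        rw [mem_filter]
        rcases hm with rfl | rfl
        · exact ⟨hm1.1, h1⟩
        · exact ⟨hm3.1, h3⟩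
      have := card_le_card this
      rwa [card_pair h13] at this
    omega

lemma sum_cov (h : Sweep P L X Y S) :
    ∑ j ∈ Ico 1 #P, #(cov P L X Y S j) + #L = ∑ m ∈ L, #m := by
  have h1 : ∑ j ∈ Ico 1 #P, #(cov P L X Y S j) = ∑ m ∈ L, (#m - 1) := by
    unfold cov
    simp_rw [card_filter]
    rw [sum_comm]
    refine sum_congr rfl fun m hm => ?_
    rw [← card_filter]
    have : {j ∈ Ico 1 #P | up P X Y S m < j ∧ j < up P X Y S m + #m}
        = Ioo (up P X Y S m) (up P X Y S m + #m) := by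
      ext j
      rw [mem_filter, mem_Ico, mem_Ioo]
      have := h.up_le hm
      omega
    rw [this, Nat.card_Ioo]
    omega
  rw [h1, card_eq_sum_ones, ← sum_add_distrib]
  refine sum_congr rfl fun m hm => ?_
  have := h.lin.two m hm
  omega

lemma sum_tou (h : Sweep P L X Y S) :
    ∑ j ∈ Ico 1 #P, #(tou P L X Y S j) + #{m ∈ L | up P X Y S m = 0} +
      #{m ∈ L | up P X Y S m + #m = #P} ≤ 2 * #L := by
  unfold tou
  simp_rw [card_filter]
  rw [sum_comm, ← sum_add_distrib, ← sum_add_distrib, mul_comm, ← smul_eq_mul]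
  refine sum_le_card_nsmul _ _ _ fun m hm => ?_
  rw [← card_filter]
  have hsub : {j ∈ Ico 1 #P | up P X Y S m = j ∨ up P X Y S m + #m = j} ⊆
      (if up P X Y S m = 0 then ∅ else {up P X Y S m}) ∪
      (if up P X Y S m + #m = #P then ∅ else {up P X Y S m + #m}) := by
    intro j hj
    rw [mem_filter, mem_Ico] at hj
    rw [mem_union]
    rcases hj.2 with h1 | h1
    · left
      rw [if_neg (by omega), mem_singleton, h1]
    · right
      rw [if_neg (by omega), mem_singleton, h1]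
  have h1 := (card_le_card hsub).trans (card_union_le _ _)
  have h2 : #(if up P X Y S m = 0 then (∅ : Finset ℕ) else {up P X Y S m})
      + (if up P X Y S m = 0 then 1 else 0) = 1 := by
    split_ifs <;> simp
  have h3 : #(if up P X Y S m + #m = #P then (∅ : Finset ℕ) else {up P X Y S m + #m})
      + (if up P X Y S m + #m = #P then 1 else 0) = 1 := by
    split_ifs <;> simp
  omega

theorem main (h : Sweep P L X Y S) : ∑ m ∈ L, #m + 3 ≤ 3 * #L := by
  classical
  have key : ∑ j ∈ Ico 1 #P, (#(cov P L X Y S j) + 1) ≤ ∑ j ∈ Ico 1 #P,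
      (#(tou P L X Y S j) + (if APred P L X S j then 1 else 0) +
        (if BPred P L X S (#P - j) then 1 else 0)) := by
    refine sum_le_sum fun j hj => ?_
    rw [mem_Ico] at hj
    exact h.gap hj.1 hj.2 _ _ (fun h1 => by rw [if_pos h1]) (fun h1 => by rw [if_pos h1])
  rw [sum_add_distrib, sum_add_distrib, sum_add_distrib] at key
  have h1 : ∑ j ∈ Ico 1 #P, (if BPred P L X S (#P - j) then 1 else 0)
      = ∑ j ∈ Ico 1 #P, (if BPred P L X S j then 1 else 0) := by
    have := sum_Ico_reflect (fun i => if BPred P L X S i then 1 else 0) 1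
      (show #P ≤ #P + 1 by omega)
    rw [this]
    congr 1
    ext j
    rw [mem_Ico, mem_Ico]
    omega
  have h2 : ∑ j ∈ Ico 1 #P, (if APred P L X S j then 1 else 0)
      + ∑ j ∈ Ico 1 #P, (if BPred P L X S j then 1 else 0) ≤ ∑ j ∈ Ico 1 #P, 1 := by
    rw [← sum_add_distrib]
    refine sum_le_sum fun j _ => ?_
    by_cases hA : APred P L X S j
    · have hB : ¬ BPred P L X S j := fun hB => h.not_both hA hB
      rw [if_pos hA, if_neg hB]
    · rw [if_neg hA]
      split_ifs <;> simp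
  rw [h1] at key
  have h3 := h.sum_cov
  have h4 := h.sum_tou
  have h5 := h.hull
  omega

end Sweep

/-- Melchior's inequality. -/
theorem melchior {α : Type*} [DecidableEq α] {P : Finset α} {L : Finset (Finset α)}
    (h : LinSpace P L) (X Y : α → ℝ)
    (hinj : ∀ a ∈ P, ∀ b ∈ P, X a = X b → Y a = Y b → a = b)
    (hline : ∀ m ∈ L, ∀ a ∈ m, ∀ b ∈ m, a ≠ b → ∀ c ∈ P,
      (c ∈ m ↔ (X b - X a) * (Y c - Y a) = (X c - X a) * (Y b - Y a)))
    (hnc : P ∉ L) (h2 : 2 ≤ #P) : ∑ m ∈ L, #m + 3 ≤ 3 * #L := by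
  classical
  -- shear
  obtain ⟨ε, hε⟩ := Infinite.exists_notMem_finset
    ((P ×ˢ P).image fun p => -(X p.1 - X p.2) / (Y p.1 - Y p.2))
  set X' : α → ℝ := fun a => X a + ε * Y a with hX'
  have hX'inj : ∀ a ∈ P, ∀ b ∈ P, X' a = X' b → a = b := by
    intro a ha b hb hab
    by_contra hne
    by_cases hY : Y a = Y b
    · apply hne
      refine hinj a ha b hb ?_ hY
      simp only [hX', hY] at hab
      linarith
    · apply hε
      rw [mem_image]
      refine ⟨(a, b), by rw [mem_product]; exact ⟨ha, hb⟩, ?_⟩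
      have : Y a - Y b ≠ 0 := sub_ne_zero.2 hY
      rw [div_eq_iff this]
      simp only [hX'] at hab
      linarith
  have hline' : ∀ m ∈ L, ∀ a ∈ m, ∀ b ∈ m, a ≠ b → ∀ c ∈ P,
      (c ∈ m ↔ (X' b - X' a) * (Y c - Y a) = (X' c - X' a) * (Y b - Y a)) := by
    intro m hm a ha b hb hab c hc
    rw [hline m hm a ha b hb hab c hc]
    simp only [hX']
    constructor <;> intro h1 <;> linarith
  set S : Finset α → ℝ := fun m =>
    if hm : ∃ a b, a ∈ m ∧ b ∈ m ∧ a ≠ b then
      (Y hm.choose_spec.choose - Y hm.choose) / (X' hm.choose_spec.choose - X' hm.choose)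
    else 0 with hS
  refine Sweep.main (P := P) (L := L) (X := X') (Y := Y) (S := S) ⟨h, hX'inj, ?_, hnc, h2⟩
  intro m hm a ha c hc
  have hm2 : ∃ a b, a ∈ m ∧ b ∈ m ∧ a ≠ b := by
    obtain ⟨x, hx, y, hy, hxy⟩ := one_lt_card.1 (h.two m hm)
    exact ⟨x, y, hx, hy, hxy⟩
  obtain ⟨ha0, hb0, hab0⟩ := hm2.choose_spec.choose_spec
  have hSm : S m = (Y hm2.choose_spec.choose - Y hm2.choose) /
      (X' hm2.choose_spec.choose - X' hm2.choose) := by
    simp only [hS]
    rw [dif_pos hm2]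
  set a0 := hm2.choose
  set b0 := hm2.choose_spec.choose
  have hsub := h.sub m hm
  have hXne : X' b0 - X' a0 ≠ 0 := by
    rw [sub_ne_zero]
    intro hcon
    exact hab0 (hX'inj _ (hsub hb0) _ (hsub ha0) hcon).symm
  have hgen : ∀ c ∈ P, (c ∈ m ↔ Y c - Y a0 = S m * (X' c - X' a0)) := by
    intro c hc
    rw [hline' m hm a0 ha0 b0 hb0 hab0 c hc, hSm, div_mul_eq_mul_div, eq_div_iff hXne]
    constructor <;> intro h1 <;> linarith
  have h3 := (hgen a (hsub ha)).1 ha
  rw [hgen c hc]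
  constructor <;> intro h1 <;> linarith

end Pool.Agent.Lib.MP_359af5_co
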