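import Pool.Agent.Lib.MP_359af5_co.Rank4
import Pool.Agent.Lib.MP_359af5_co.Melchior

/-!
# Glue: finite sets of points of 3-space as abstract points-lines-planes structures
-/

namespace Pool.Agent.Lib.MP_359af5_co

open Finset

noncomputable section

/-- 3-space. -/
abbrev V3 := EuclideanSpace ℝ (Fin 3)

/-- The points of `S` on the flat `A`. -/
def flat (S : Finset V3) (A : AffineSubspace ℝ V3) : Finset V3 := by
  classical exact S.filter (· ∈ A)

lemma mem_flat {S : Finset V3} {A : AffineSubspace ℝ V3} {x : V3} :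
    x ∈ flat S A ↔ x ∈ S ∧ x ∈ A := by
  classical
  simp [flat]

/-- The set of lines spanned by `S`. -/
def LS (S : Finset V3) : Set (AffineSubspace ℝ V3) :=
  {L : AffineSubspace ℝ (EuclideanSpace ℝ (Fin 3)) |
            ∃ x ∈ S, ∃ y ∈ S, x ≠ y ∧
              L = affineSpan ℝ ({x, y} : Set (EuclideanSpace ℝ (Fin 3)))}

/-- The set of planes spanned by `S`. -/
def PS (S : Finset V3) : Set (AffineSubspace ℝ V3) :=
  {P : AffineSubspace ℝ (EuclideanSpace ℝ (Fin 3)) |
            ∃ x ∈ S, ∃ y ∈ S, ∃ z ∈ S,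
              ¬ Collinear ℝ ({x, y, z} : Set (EuclideanSpace ℝ (Fin 3))) ∧
              P = affineSpan ℝ ({x, y, z} : Set (EuclideanSpace ℝ (Fin 3)))}

lemma LS_finite (S : Finset V3) : (LS S).Finite := by
  classical
  apply Set.Finite.subset ((S ×ˢ S).image
    fun p => affineSpan ℝ ({p.1, p.2} : Set V3)).finite_toSet
  rintro A ⟨x, hx, y, hy, -, rfl⟩
  simp only [coe_image, Set.mem_image, mem_coe, mem_product, Prod.exists]
  exact ⟨x, y, ⟨hx, hy⟩, rfl⟩

lemma PS_finite (S : Finset V3) : (PS S).Finite := by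
  classical
  apply Set.Finite.subset ((S ×ˢ S ×ˢ S).image
    fun p => affineSpan ℝ ({p.1, p.2.1, p.2.2} : Set V3)).finite_toSet
  rintro A ⟨x, hx, y, hy, z, hz, -, rfl⟩
  simp only [coe_image, Set.mem_image, mem_coe, mem_product, Prod.exists]
  exact ⟨x, y, z, ⟨hx, hy, hz⟩, rfl⟩

lemma line_eq {a b x y : V3} (hxy : x ≠ y) (hx : x ∈ affineSpan ℝ ({a, b} : Set V3))
    (hy : y ∈ affineSpan ℝ ({a, b} : Set V3)) :
    affineSpan ℝ ({x, y} : Set V3) = affineSpan ℝ ({a, b} : Set V3) := by
  have hc : Collinear ℝ ((affineSpan ℝ ({a, b} : Set V3) : AffineSubspace ℝ V3) : Set V3) := by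
    have h1 : Module.rank ℝ (affineSpan ℝ ({a, b} : Set V3)).direction ≤ 1 := by
      rw [direction_affineSpan]
      exact collinear_pair ℝ a b
    exact h1
  have := hc.affineSpan_eq_of_ne (p₁ := x) (p₂ := y) hx hy hxy
  rw [this]
  simp

lemma plane_eq {a b c x y z : V3} (hxyz : ¬ Collinear ℝ ({x, y, z} : Set V3))
    (hx : x ∈ affineSpan ℝ ({a, b, c} : Set V3)) (hy : y ∈ affineSpan ℝ ({a, b, c} : Set V3))
    (hz : z ∈ affineSpan ℝ ({a, b, c} : Set V3)) :
    affineSpan ℝ ({x, y, z} : Set V3) = affineSpan ℝ ({a, b, c} : Set V3) := by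
  have hai : AffineIndependent ℝ ![x, y, z] := affineIndependent_iff_not_collinear_set.2 hxyz
  have hle : affineSpan ℝ ({x, y, z} : Set V3) ≤ affineSpan ℝ ({a, b, c} : Set V3) := by
    rw [affineSpan_le]
    rintro w (rfl | rfl | rfl)
    · exact hx
    · exact hy
    · exact hz
  apply AffineSubspace.eq_of_direction_eq_of_nonempty_of_le _ ⟨x, _⟩ hle
  · apply Submodule.eq_of_le_of_finrank_le (AffineSubspace.direction_le hle)
    have h1 : Module.finrank ℝ (vectorSpan ℝ (Set.range ![x, y, z])) = 2 :=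
      hai.finrank_vectorSpan (by simp)
    have h2 : Module.finrank ℝ (vectorSpan ℝ (Set.range ![a, b, c])) ≤ 2 :=
      finrank_vectorSpan_range_le ℝ ![a, b, c] (by simp)
    rw [direction_affineSpan, direction_affineSpan]
    have e1 : Set.range ![x, y, z] = {x, y, z} := by
      ext w
      simp [eq_comm]
      tauto
    have e2 : Set.range ![a, b, c] = {a, b, c} := by
      ext w
      simp [eq_comm]
      tauto
    rw [e1] at h1
    rw [e2] at h2
    omega
  · exact subset_affineSpan _ _ (by simp)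

/-- The lines as finite point sets. -/
def lines (S : Finset V3) : Finset (Finset V3) := by
  classical exact (LS_finite S).toFinset.image (flat S)

/-- The planes as finite point sets. -/
def planes (S : Finset V3) : Finset (Finset V3) := by
  classical exact (PS_finite S).toFinset.image (flat S)

lemma mem_lines {S : Finset V3} {m : Finset V3} : m ∈ lines S ↔
    ∃ x ∈ S, ∃ y ∈ S, x ≠ y ∧ m = flat S (affineSpan ℝ ({x, y} : Set V3)) := by
  classical
  simp only [lines, mem_image, Set.Finite.mem_toFinset, LS, Set.mem_ofPred_eq]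
  constructor
  · rintro ⟨A, ⟨x, hx, y, hy, hxy, rfl⟩, rfl⟩
    exact ⟨x, hx, y, hy, hxy, rfl⟩
  · rintro ⟨x, hx, y, hy, hxy, rfl⟩
    exact ⟨_, ⟨x, hx, y, hy, hxy, rfl⟩, rfl⟩

lemma mem_planes {S : Finset V3} {m : Finset V3} : m ∈ planes S ↔
    ∃ x ∈ S, ∃ y ∈ S, ∃ z ∈ S, ¬ Collinear ℝ ({x, y, z} : Set V3) ∧
      m = flat S (affineSpan ℝ ({x, y, z} : Set V3)) := by
  classical
  simp only [planes, mem_image, Set.Finite.mem_toFinset, PS, Set.mem_ofPred_eq]
  constructor
  · rintro ⟨A, ⟨x, hx, y, hy, z, hz, hxy, rfl⟩, rfl⟩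
    exact ⟨x, hx, y, hy, z, hz, hxy, rfl⟩
  · rintro ⟨x, hx, y, hy, z, hz, hxy, rfl⟩
    exact ⟨_, ⟨x, hx, y, hy, z, hz, hxy, rfl⟩, rfl⟩

lemma left_mem_pair (x y : V3) : x ∈ affineSpan ℝ ({x, y} : Set V3) :=
  subset_affineSpan _ _ (by simp)

lemma right_mem_pair (x y : V3) : y ∈ affineSpan ℝ ({x, y} : Set V3) :=
  subset_affineSpan _ _ (by simp)

lemma card_lines (S : Finset V3) : #(lines S) = (LS S).ncard := by
  classical
  rw [Set.ncard_eq_toFinset_card _ (LS_finite S)]
  unfold lines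
  apply card_image_of_injOn
  intro A hA B hB hAB
  rw [mem_coe, Set.Finite.mem_toFinset] at hA hB
  obtain ⟨x, hx, y, hy, hxy, rfl⟩ := hA
  obtain ⟨a, ha, b, hb, hab, rfl⟩ := hB
  have h1 : x ∈ flat S (affineSpan ℝ ({a, b} : Set V3)) := by
    rw [← show flat S (affineSpan ℝ ({x, y} : Set V3)) = flat S (affineSpan ℝ ({a, b} : Set V3))
      from hAB]
    exact mem_flat.2 ⟨hx, left_mem_pair x y⟩
  have h2 : y ∈ flat S (affineSpan ℝ ({a, b} : Set V3)) := by
    rw [← show flat S (affineSpan ℝ ({x, y} : Set V3)) = flat S (affineSpan ℝ ({a, b} : Set V3))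
      from hAB]
    exact mem_flat.2 ⟨hy, right_mem_pair x y⟩
  exact line_eq hxy (mem_flat.1 h1).2 (mem_flat.1 h2).2

lemma card_planes (S : Finset V3) : #(planes S) = (PS S).ncard := by
  classical
  rw [Set.ncard_eq_toFinset_card _ (PS_finite S)]
  unfold planes
  apply card_image_of_injOn
  intro A hA B hB hAB
  rw [mem_coe, Set.Finite.mem_toFinset] at hA hB
  obtain ⟨x, hx, y, hy, z, hz, hxyz, rfl⟩ := hA
  obtain ⟨a, ha, b, hb, c, hc, habc, rfl⟩ := hB
  have h1 : ∀ w ∈ S, w ∈ ({x, y, z} : Set V3) → w ∈ affineSpan ℝ ({a, b, c} : Set V3) := by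
    intro w hw hw'
    have h1 : w ∈ flat S (affineSpan ℝ ({a, b, c} : Set V3)) := by
      rw [← show flat S (affineSpan ℝ ({x, y, z} : Set V3)) =
        flat S (affineSpan ℝ ({a, b, c} : Set V3)) from hAB]
      exact mem_flat.2 ⟨hw, subset_affineSpan _ _ hw'⟩
    exact (mem_flat.1 h1).2
  exact plane_eq hxyz (h1 x hx (by simp)) (h1 y hy (by simp)) (h1 z hz (by simp))

lemma line_le {A : AffineSubspace ℝ V3} {x y : V3} (hx : x ∈ A) (hy : y ∈ A) :
    affineSpan ℝ ({x, y} : Set V3) ≤ A := by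
  rw [affineSpan_le]
  rintro w (rfl | rfl)
  · exact hx
  · exact hy

lemma linSpace [DecidableEq V3] (S : Finset V3) : LinSpace S (lines S) where
  sub := by
    intro m hm
    obtain ⟨x, hx, y, hy, hxy, rfl⟩ := mem_lines.1 hm
    intro w hw
    exact (mem_flat.1 hw).1
  two := by
    intro m hm
    obtain ⟨x, hx, y, hy, hxy, rfl⟩ := mem_lines.1 hm
    have : #({x, y} : Finset V3) = 2 := card_pair hxy
    rw [← this]
    apply card_le_card
    intro w hw
    rw [mem_insert, mem_singleton] at hw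
    rcases hw with rfl | rfl
    · exact mem_flat.2 ⟨hx, left_mem_pair _ _⟩
    · exact mem_flat.2 ⟨hy, right_mem_pair _ _⟩
  cover := by
    intro x hx y hy hxy
    exact ⟨_, mem_lines.2 ⟨x, hx, y, hy, hxy, rfl⟩, mem_flat.2 ⟨hx, left_mem_pair _ _⟩,
      mem_flat.2 ⟨hy, right_mem_pair _ _⟩⟩
  uniq := by
    intro m hm m' hm' x y hxy hx hy hx' hy'
    obtain ⟨a, ha, b, hb, hab, rfl⟩ := mem_lines.1 hm
    obtain ⟨c, hc, d, hd, hcd, rfl⟩ := mem_lines.1 hm'
    rw [← line_eq hxy (mem_flat.1 hx).2 (mem_flat.1 hy).2,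
      ← line_eq hxy (mem_flat.1 hx').2 (mem_flat.1 hy').2]

lemma not_collinear_of {a b z : V3} (hab : a ≠ b) (hz : z ∉ affineSpan ℝ ({a, b} : Set V3)) :
    ¬ Collinear ℝ ({a, b, z} : Set V3) := by
  intro hc
  apply hz
  have h := hc.affineSpan_eq_of_ne (p₁ := a) (p₂ := b) (by simp) (by simp) hab
  rw [h]
  exact subset_affineSpan _ _ (by simp)

lemma geom [DecidableEq V3] (S : Finset V3) : Geom S (lines S) (planes S) where
  lin := linSpace S
  jsub := by
    intro m hm
    obtain ⟨x, hx, y, hy, z, hz, hxyz, rfl⟩ := mem_planes.1 hm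
    intro w hw
    exact (mem_flat.1 hw).1
  jflat := by
    intro j hj m hm x y hxy hx hy hx' hy'
    obtain ⟨a, ha, b, hb, c, hc, habc, rfl⟩ := mem_planes.1 hj
    obtain ⟨d, hd, e, he, hde, rfl⟩ := mem_lines.1 hm
    intro w hw
    rw [mem_flat] at hw ⊢
    refine ⟨hw.1, ?_⟩
    have h1 := hw.2
    rw [← line_eq hxy (mem_flat.1 hx).2 (mem_flat.1 hy).2] at h1
    exact line_le (mem_flat.1 hx').2 (mem_flat.1 hy').2 h1
  jline := by
    intro j hj m hm hjm
    obtain ⟨a, ha, b, hb, c, hc, habc, rfl⟩ := mem_planes.1 hj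
    obtain ⟨d, hd, e, he, hde, rfl⟩ := mem_lines.1 hm
    apply habc
    have h1 : ∀ w ∈ S, w ∈ ({a, b, c} : Set V3) → w ∈ affineSpan ℝ ({d, e} : Set V3) := by
      intro w hw hw'
      exact (mem_flat.1 (hjm (mem_flat.2 ⟨hw, subset_affineSpan _ _ hw'⟩))).2
    have h2 : Collinear ℝ ((affineSpan ℝ ({d, e} : Set V3) : AffineSubspace ℝ V3) : Set V3) := by
      have h1 : Module.rank ℝ (affineSpan ℝ ({d, e} : Set V3)).direction ≤ 1 := by
        rw [direction_affineSpan]
        exact collinear_pair ℝ d e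
      exact h1
    apply h2.subset
    rintro w (rfl | rfl | rfl)
    · exact h1 _ ha (by simp)
    · exact h1 _ hb (by simp)
    · exact h1 _ hc (by simp)
  jcard := by
    intro j hj
    obtain ⟨a, ha, b, hb, c, hc, habc, rfl⟩ := mem_planes.1 hj
    have hab : a ≠ b := by
      rintro rfl
      apply habc
      simpa using collinear_pair ℝ a c
    have : #({a, b} : Finset V3) = 2 := card_pair hab
    rw [← this]
    apply card_le_card
    intro w hw
    rw [mem_insert, mem_singleton] at hw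
    rcases hw with rfl | rfl
    · exact mem_flat.2 ⟨ha, subset_affineSpan _ _ (by simp)⟩
    · exact mem_flat.2 ⟨hb, subset_affineSpan _ _ (by simp)⟩
  jcover := by
    intro m hm z hz hzm
    obtain ⟨d, hd, e, he, hde, rfl⟩ := mem_lines.1 hm
    have hz' : z ∉ affineSpan ℝ ({d, e} : Set V3) := fun h => hzm (mem_flat.2 ⟨hz, h⟩)
    refine ⟨_, mem_planes.2 ⟨d, hd, e, he, z, hz, not_collinear_of hde hz', rfl⟩, ?_, ?_⟩
    · intro w hw
      rw [mem_flat] at hw ⊢
      refine ⟨hw.1, line_le ?_ ?_ hw.2⟩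
      · exact subset_affineSpan _ _ (by simp)
      · exact subset_affineSpan _ _ (by simp)
    · exact mem_flat.2 ⟨hz, subset_affineSpan _ _ (by simp)⟩
  juniq := by
    intro j hj j' hj' m hm z hz hmj hzj hmj' hzj'
    obtain ⟨a, ha, b, hb, c, hc, habc, rfl⟩ := mem_planes.1 hj
    obtain ⟨a', ha', b', hb', c', hc', habc', rfl⟩ := mem_planes.1 hj'
    obtain ⟨d, hd, e, he, hde, rfl⟩ := mem_lines.1 hm
    have hzS : z ∈ S := (mem_flat.1 hzj).1
    have hz' : z ∉ affineSpan ℝ ({d, e} : Set V3) := fun h => hz (mem_flat.2 ⟨hzS, h⟩)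
    have hdm : d ∈ flat S (affineSpan ℝ ({d, e} : Set V3)) := mem_flat.2 ⟨hd, left_mem_pair _ _⟩
    have hem : e ∈ flat S (affineSpan ℝ ({d, e} : Set V3)) := mem_flat.2 ⟨he, right_mem_pair _ _⟩
    rw [← plane_eq (not_collinear_of hde hz') (mem_flat.1 (hmj hdm)).2 (mem_flat.1 (hmj hem)).2
      (mem_flat.1 hzj).2,
      ← plane_eq (not_collinear_of hde hz') (mem_flat.1 (hmj' hdm)).2 (mem_flat.1 (hmj' hem)).2
      (mem_flat.1 hzj').2]

lemma dir_zero {a b c v : V3} (hv : v ∈ (affineSpan ℝ ({a, b, c} : Set V3)).direction)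
    (h1 : inner ℝ (b - a) v = 0) (h2 : inner ℝ (c - a) v = 0) : v = 0 := by
  rw [direction_affineSpan, vectorSpan_eq_span_vsub_set_right ℝ (p := a) (by simp)] at hv
  have h3 : ∀ x ∈ Submodule.span ℝ ((fun x => x -ᵥ a) '' ({a, b, c} : Set V3)),
      inner ℝ x v = 0 := by
    intro x hx
    induction hx using Submodule.span_induction with
    | mem x hx =>
      obtain ⟨y, hy, rfl⟩ := hx
      rcases hy with rfl | rfl | rfl
      · simp
      · simpa using h1
      · simpa using h2
    | zero => simp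
    | add x y _ _ hx hy => rw [inner_add_left, hx, hy, add_zero]
    | smul r x _ hx => rw [inner_smul_left, hx, mul_zero]
  exact inner_self_eq_zero.1 (h3 v hv)

/-- The planar inequality for all finite non-collinear sets of points of the real plane, in
coordinates. -/
def PlanarReal : Prop :=
  ∀ (α : Type) (_ : DecidableEq α) (P : Finset α) (L : Finset (Finset α)), LinSpace P L →
    ∀ X Y : α → ℝ,
    (∀ a ∈ P, ∀ b ∈ P, X a = X b → Y a = Y b → a = b) →
    (∀ m ∈ L, ∀ a ∈ m, ∀ b ∈ m, a ≠ b → ∀ c ∈ P,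
      (c ∈ m ↔ (X b - X a) * (Y c - Y a) = (X c - X a) * (Y b - Y a))) →
    P ∉ L → 2 ≤ #P → Planar P L

lemma planar_of_mem [DecidableEq V3] (H : PlanarReal) (S : Finset V3) {j : Finset V3}
    (hj : j ∈ planes S) : Planar j ((lines S).filter (· ⊆ j)) := by
  have G := geom S
  obtain ⟨a, ha, b, hb, c, hc, habc, hjeq⟩ := mem_planes.1 hj
  have key : ∀ p ∈ j, ∀ q ∈ j, q - p ∈ (affineSpan ℝ ({a, b, c} : Set V3)).direction := by
    intro p hp q hq
    rw [hjeq] at hp hq
    exact AffineSubspace.vsub_mem_direction (mem_flat.1 hq).2 (mem_flat.1 hp).2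
  refine H V3 _ j _ (G.linSpace hj) (fun p => inner ℝ (b - a) p) (fun p => inner ℝ (c - a) p)
    ?_ ?_ ?_ (G.jcard j hj)
  · intro p hp q hq h1 h2
    have h3 := dir_zero (key p hp q hq) (by
      rw [inner_sub_right, h1, sub_self]) (by
      rw [inner_sub_right, h2, sub_self])
    exact (sub_eq_zero.1 h3).symm
  · intro m hm p hp q hq hpq r hr
    rw [mem_filter] at hm
    have hpj := hm.2 hp
    have hqj := hm.2 hq
    obtain ⟨d, hd, e, he, hde, hmeq⟩ := mem_lines.1 hm.1
    have hm2 : m = flat S (affineSpan ℝ ({p, q} : Set V3)) := by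
      rw [hmeq] at hp hq ⊢
      rw [line_eq hpq (mem_flat.1 hp).2 (mem_flat.1 hq).2]
    have hrS : r ∈ S := G.jsub j hj hr
    have hmem : r ∈ m ↔ ∃ t : ℝ, r - p = t • (q - p) := by
      rw [hm2, mem_flat]
      constructor
      · rintro ⟨-, h⟩
        rw [mem_affineSpan_pair_iff_exists_lineMap_eq] at h
        obtain ⟨t, ht⟩ := h
        refine ⟨t, ?_⟩
        rw [← ht, AffineMap.lineMap_apply]
        simp
      · rintro ⟨t, ht⟩
        refine ⟨hrS, ?_⟩
        rw [mem_affineSpan_pair_iff_exists_lineMap_eq]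
        refine ⟨t, ?_⟩
        rw [AffineMap.lineMap_apply]
        simp only [vsub_eq_sub, vadd_eq_add]
        rw [← ht]
        abel
    rw [hmem]
    simp only [← inner_sub_right]
    constructor
    · rintro ⟨t, ht⟩
      rw [ht, inner_smul_right, inner_smul_right]
      ring
    · intro h
      set xp := inner ℝ (b - a) (q - p) with hxp
      set yp := inner ℝ (c - a) (q - p) with hyp
      set xr := inner ℝ (b - a) (r - p) with hxr
      set yr := inner ℝ (c - a) (r - p) with hyr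
      have d1 := key p hpj q hqj
      have d2 := key p hpj r hr
      have e1 : xr • (q - p) - xp • (r - p) = 0 := by
        apply dir_zero (Submodule.sub_mem _ (Submodule.smul_mem _ _ d1) (Submodule.smul_mem _ _ d2))
        · rw [inner_sub_right, inner_smul_right, inner_smul_right, ← hxp, ← hxr]
          ring
        · rw [inner_sub_right, inner_smul_right, inner_smul_right, ← hyp, ← hyr]
          linarith
      have e2 : yr • (q - p) - yp • (r - p) = 0 := by
        apply dir_zero (Submodule.sub_mem _ (Submodule.smul_mem _ _ d1) (Submodule.smul_mem _ _ d2))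
        · rw [inner_sub_right, inner_smul_right, inner_smul_right, ← hxp, ← hxr]
          linarith
        · rw [inner_sub_right, inner_smul_right, inner_smul_right, ← hyp, ← hyr]
          ring
      by_cases hx0 : xp = 0
      · by_cases hy0 : yp = 0
        · exfalso
          have := dir_zero d1 hx0 hy0
          exact hpq (sub_eq_zero.1 this).symm
        · refine ⟨yr / yp, ?_⟩
          have e3 : yp • (r - p) = yr • (q - p) := (sub_eq_zero.1 e2).symm
          rw [div_eq_inv_mul, mul_smul, ← e3, smul_smul, inv_mul_cancel₀ hy0, one_smul]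
      · refine ⟨xr / xp, ?_⟩
        have e3 : xp • (r - p) = xr • (q - p) := (sub_eq_zero.1 e1).symm
        rw [div_eq_inv_mul, mul_smul, ← e3, smul_smul, inv_mul_cancel₀ hx0, one_smul]
  · intro hjL
    rw [mem_filter] at hjL
    exact G.jline j hj j hjL.1 (Subset.refl j)

/-- The frozen statement from the planar inequality. -/
theorem frozen_of_planar (H : PlanarReal) :
    ∀ S : Finset (EuclideanSpace ℝ (Fin 3)),
      3 * S.card *
          {P : AffineSubspace ℝ (EuclideanSpace ℝ (Fin 3)) |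
            ∃ x ∈ S, ∃ y ∈ S, ∃ z ∈ S,
              ¬ Collinear ℝ ({x, y, z} : Set (EuclideanSpace ℝ (Fin 3))) ∧
              P = affineSpan ℝ ({x, y, z} : Set (EuclideanSpace ℝ (Fin 3)))}.ncard
        ≤ 2 *
          ({L : AffineSubspace ℝ (EuclideanSpace ℝ (Fin 3)) |
            ∃ x ∈ S, ∃ y ∈ S, x ≠ y ∧
              L = affineSpan ℝ ({x, y} : Set (EuclideanSpace ℝ (Fin 3)))}.ncard) ^ 2 := by
  classical
  intro S
  have h1 := (geom S).main (fun j hj => planar_of_mem H S hj)
  rw [card_lines, card_planes] at h1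
  have h2 : (3 * #S * (PS S).ncard : ℝ) ≤ 2 * ((LS S).ncard : ℝ) ^ 2 := by linarith
  have h3 : 3 * #S * (PS S).ncard ≤ 2 * ((LS S).ncard) ^ 2 := by exact_mod_cast h2
  exact h3

end

end Pool.Agent.Lib.MP_359af5_co
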