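import Pool.Agent.Lib.MP_359af5_co.Bounds
import Pool.Agent.Lib.MP_359af5_co.Arith

/-!
# The planar inequality
-/

namespace Pool.Agent.Lib.MP_359af5_co

open Finset

variable {α : Type*} [DecidableEq α] {P : Finset α} {L : Finset (Finset α)}

/-- The excess of `lam` on the line `M`. -/
lemma LinSpace.sigma_eq (h : LinSpace P L) {M : Finset α} (hM : M ∈ L) :
    ∑ x ∈ M, (lam L x - 1 / #M) = ∑ m ∈ L.erase M, (#(m ∩ M) : ℝ) / #m := by
  have hM0 := h.card_pos hM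
  rw [sum_sub_distrib, h.sum_lam_subset M (h.sub M hM), ← add_sum_erase L _ hM, inter_self,
    div_self hM0.ne', sum_const, nsmul_eq_mul, mul_one_div_cancel hM0.ne']
  ring

lemma LinSpace.card_split (h : LinSpace P L) {M m : Finset α} (hm : m ∈ L) :
    (#m : ℝ) = #(m ∩ M) + #(m ∩ (P \ M)) := by
  have h1 : m ∩ (P \ M) = m \ M := by
    ext x
    simp only [mem_inter, mem_sdiff]
    constructor
    · rintro ⟨a, _, c⟩
      exact ⟨a, c⟩
    · rintro ⟨a, b⟩
      exact ⟨a, h.sub m hm a, b⟩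
  rw [h1]
  exact_mod_cast (card_inter_add_card_sdiff m M).symm

/-- The pairs with exactly one point on `M`. -/
lemma LinSpace.sum_cd (h : LinSpace P L) {M : Finset α} (hM : M ∈ L) :
    ∑ m ∈ L.erase M, (#(m ∩ M) : ℝ) * #(m ∩ (P \ M)) = #M * (#P - #M) := by
  have h1 := h.sum_prod (h.sub M hM) (sdiff_subset (s := P) (t := M)) disjoint_sdiff
  rw [← add_sum_erase L _ hM] at h1
  have h2 : M ∩ (P \ M) = ∅ := by
    rw [← disjoint_iff_inter_eq_empty]
    exact disjoint_sdiff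
  rw [h2, card_empty, Nat.cast_zero, mul_zero, zero_add,
    card_sdiff_of_subset (h.sub M hM), Nat.cast_sub (card_le_card (h.sub M hM))] at h1
  exact h1

/-- The pairs outside of `M`. -/
lemma LinSpace.sum_dd (h : LinSpace P L) {M : Finset α} (hM : M ∈ L) :
    ∑ m ∈ L.erase M, (#(m ∩ (P \ M)) : ℝ) * (#(m ∩ (P \ M)) - 1) =
      (#P - #M) * (#P - #M - 1) := by
  have h1 := h.sum_off (sdiff_subset (s := P) (t := M))
  rw [← add_sum_erase L _ hM] at h1
  have h2 : M ∩ (P \ M) = ∅ := by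
    rw [← disjoint_iff_inter_eq_empty]
    exact disjoint_sdiff
  rw [h2, card_empty, Nat.cast_zero, zero_mul, zero_add,
    card_sdiff_of_subset (h.sub M hM), Nat.cast_sub (card_le_card (h.sub M hM))] at h1
  exact h1

/-- The variance of `lam` on `M`. -/
lemma LinSpace.D_le (h : LinSpace P L) {M : Finset α} (hM : M ∈ L) {σ : ℝ}
    (hσ : ∑ x ∈ M, (lam L x - 1 / #M) = σ) :
    ∃ D : ℝ, ∑ x ∈ M, ∑ y ∈ M, (lam L x - lam L y) ^ 2 = 2 * D ∧
      D ≤ σ * (#M * (#P - #M) / 2 - σ) ∧ 0 ≤ σ ∧ σ ≤ #M * (#P - #M) / 2 := by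
  have hM0 := h.card_pos hM
  set K : ℝ := (#M : ℝ) with hK
  set t : ℝ := #P - K with ht
  set s : α → ℝ := fun x => lam L x - 1 / K with hs
  have hs0 : ∀ x ∈ M, 0 ≤ s x := by
    intro x hx
    have := LinSpace.le_lam hM hx
    simp only [hs]
    linarith
  have hs1 : ∀ x ∈ M, s x ≤ t / 2 := by
    intro x hx
    have := h.lam_le hM hx
    simp only [hs, ht]
    linarith
  refine ⟨K * ∑ x ∈ M, s x ^ 2 - σ ^ 2, ?_, ?_, ?_, ?_⟩
  · have h1 : ∑ x ∈ M, ∑ y ∈ M, (lam L x - lam L y) ^ 2 =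
        ∑ x ∈ M, ∑ y ∈ M, (s x - s y) ^ 2 := by
      apply sum_congr rfl
      intro x _
      apply sum_congr rfl
      intro y _
      simp only [hs]
      ring
    rw [h1, sum_sq_diff, hσ]
  · have h1 : ∑ x ∈ M, s x ^ 2 ≤ ∑ x ∈ M, t / 2 * s x := by
      apply sum_le_sum
      intro x hx
      have := hs0 x hx
      have := hs1 x hx
      nlinarith
    rw [← mul_sum, hσ] at h1
    nlinarith
  · rw [← hσ]
    exact sum_nonneg hs0
  · rw [← hσ]
    have h1 := sum_le_sum hs1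
    rw [sum_const, nsmul_eq_mul] at h1
    linarith

lemma cd_aux {c d : ℕ} (hc : c ≤ 1) (h2 : 2 ≤ c + d) :
    (c : ℝ) * d / 2 - c / (c + d) ≤ (d : ℝ) * (d - 1) / 3 := by
  rcases Nat.lt_or_ge c 1 with h0 | h1
  · have hc0 : c = 0 := by omega
    have hd : (2 : ℝ) ≤ d := by
      have : 2 ≤ d := by omega
      exact_mod_cast this
    rw [hc0]
    simp only [Nat.cast_zero, zero_mul, zero_div, sub_zero]
    have : 0 ≤ (d : ℝ) * (d - 1) := mul_nonneg (by linarith) (by linarith)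
    linarith
  · have hc1 : c = 1 := by omega
    have hd : 1 ≤ d := by omega
    rw [hc1]
    have hd' : (1 : ℝ) ≤ d := by exact_mod_cast hd
    have h3 : 0 ≤ ((d : ℝ) - 1) * (d - 2) := by
      rcases Nat.lt_or_ge 1 d with h4 | h4
      · have : (2 : ℝ) ≤ d := by exact_mod_cast h4
        exact mul_nonneg (by linarith) (by linarith)
      · have : d = 1 := by omega
        rw [this]
        norm_num
    rw [Nat.cast_one, one_mul, sub_le_iff_le_add, ← sub_le_iff_le_add',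
      le_div_iff₀ (by linarith)]
    nlinarith

/-- The deficit of `sigma`. -/
lemma LinSpace.sigma_deficit (h : LinSpace P L) {M : Finset α} (hM : M ∈ L) :
    (#M : ℝ) * (#P - #M) / 2 - ∑ x ∈ M, (lam L x - 1 / #M) ≤
      (#P - #M) * (#P - #M - 1) / 3 := by
  rw [h.sigma_eq hM, ← h.sum_cd hM, ← h.sum_dd hM, sum_div, sum_div, ← sum_sub_distrib]
  apply sum_le_sum
  intro m hm
  rw [mem_erase] at hm
  rw [h.card_split (M := M) hm.2]
  apply cd_aux (h.card_inter_le hm.2 hM hm.1)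
  have h1 := h.card_split (M := M) hm.2
  have h2 := h.two m hm.2
  have h3 : #m = #(m ∩ M) + #(m ∩ (P \ M)) := by exact_mod_cast h1
  omega

lemma LinSpace.sigma_le (h : LinSpace P L) {M : Finset α} (hM : M ∈ L) :
    ∑ x ∈ M, (lam L x - 1 / #M) ≤ ((#L : ℝ) - 1) / 2 := by
  rw [h.sigma_eq hM]
  have h1 : ∑ m ∈ L.erase M, (#(m ∩ M) : ℝ) / #m ≤ ∑ m ∈ L.erase M, (1 : ℝ) / 2 := by
    apply sum_le_sum
    intro m hm
    rw [mem_erase] at hm
    have h1 : (#(m ∩ M) : ℝ) ≤ 1 := by exact_mod_cast h.card_inter_le hm.2 hM hm.1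
    have h2 : (2 : ℝ) ≤ #m := by exact_mod_cast h.two m hm.2
    apply div_le_div₀ zero_le_one h1 two_pos h2
  rw [sum_const, nsmul_eq_mul, card_erase_of_mem hM,
    Nat.cast_sub (Finset.card_pos.2 ⟨M, hM⟩)] at h1
  simp only [Nat.cast_one] at h1
  linarith

/-- The consequence of the Melchior inequality. -/
lemma LinSpace.melchior_bound (h : LinSpace P L) {M : Finset α} (hM : M ∈ L)
    (hMel : ∑ m ∈ L, #m + 3 ≤ 3 * #L) :
    (#M : ℝ) * (#P - #M + 1) + 2 ≤ 2 * #L := by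
  have h1 : (∑ m ∈ L, (#m : ℝ)) + 3 ≤ 3 * #L := by exact_mod_cast hMel
  rw [← add_sum_erase L _ hM] at h1
  have h2 : ∑ m ∈ L.erase M, ((1 : ℝ) + #(m ∩ M) * #(m ∩ (P \ M))) ≤
      ∑ m ∈ L.erase M, (#m : ℝ) := by
    apply sum_le_sum
    intro m hm
    rw [mem_erase] at hm
    have h3 := h.card_inter_le hm.2 hM hm.1
    have h4 := h.card_split (M := M) hm.2
    have h5 : (2 : ℝ) ≤ #m := by exact_mod_cast h.two m hm.2
    rcases Nat.lt_or_ge (#(m ∩ M)) 1 with h0 | h1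
    · have hc0 : #(m ∩ M) = 0 := by omega
      rw [hc0]
      simp only [Nat.cast_zero, zero_mul, add_zero]
      linarith
    · have hc1 : #(m ∩ M) = 1 := by omega
      rw [hc1] at h4 ⊢
      simp only [Nat.cast_one, one_mul] at h4 ⊢
      linarith
  rw [sum_add_distrib, h.sum_cd hM, sum_const, nsmul_eq_mul, card_erase_of_mem hM,
    Nat.cast_sub (Finset.card_pos.2 ⟨M, hM⟩)] at h2
  simp only [Nat.cast_one] at h2
  linarith

/-- Two lines force many lines. -/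
lemma LinSpace.two_lines (h : LinSpace P L) {M M₂ : Finset α} (hM : M ∈ L) (hM₂ : M₂ ∈ L)
    (hne : M₂ ≠ M) : (2 : ℝ) + (#M - 1) * (#M₂ - 1) ≤ #L := by
  have hI := h.card_inter_le hM₂ hM hne
  have hd : Disjoint (M \ M₂) (M₂ \ M) := disjoint_sdiff_sdiff
  have h1 := h.sum_prod (A := M \ M₂) (B := M₂ \ M)
    (sdiff_subset.trans (h.sub M hM)) (sdiff_subset.trans (h.sub M₂ hM₂)) hd
  have hM₂' : M₂ ∈ L.erase M := mem_erase.2 ⟨hne, hM₂⟩
  rw [← add_sum_erase L _ hM, ← add_sum_erase _ _ hM₂'] at h1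
  have h2 : M ∩ (M₂ \ M) = ∅ := by
    rw [← disjoint_iff_inter_eq_empty]
    exact disjoint_sdiff
  have h3 : M₂ ∩ (M \ M₂) = ∅ := by
    rw [← disjoint_iff_inter_eq_empty]
    exact disjoint_sdiff
  rw [h2, h3, card_empty, Nat.cast_zero, mul_zero, zero_mul, zero_add, zero_add] at h1
  have h4 : ∑ m ∈ (L.erase M).erase M₂, (#(m ∩ (M \ M₂)) : ℝ) * #(m ∩ (M₂ \ M)) ≤
      ∑ m ∈ (L.erase M).erase M₂, (1 : ℝ) := by
    apply sum_le_sum
    intro m hm
    rw [mem_erase, mem_erase] at hm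
    have h5 : #(m ∩ (M \ M₂)) ≤ 1 :=
      (card_le_card (inter_subset_inter_left sdiff_subset)).trans
        (h.card_inter_le hm.2.2 hM hm.2.1)
    have h6 : #(m ∩ (M₂ \ M)) ≤ 1 :=
      (card_le_card (inter_subset_inter_left sdiff_subset)).trans
        (h.card_inter_le hm.2.2 hM₂ hm.1)
    have h7 : (#(m ∩ (M \ M₂)) : ℝ) ≤ 1 := by exact_mod_cast h5
    have h8 : (#(m ∩ (M₂ \ M)) : ℝ) ≤ 1 := by exact_mod_cast h6
    exact mul_le_one₀ h7 (Nat.cast_nonneg _) h8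
  rw [h1, sum_const, nsmul_eq_mul, mul_one, card_erase_of_mem hM₂', card_erase_of_mem hM] at h4
  have h9 : 2 ≤ #L := by
    have : ({M, M₂} : Finset (Finset α)) ⊆ L := by
      intro x hx
      simp only [mem_insert, mem_singleton] at hx
      rcases hx with rfl | rfl
      · exact hM
      · exact hM₂
    have h10 := card_le_card this
    rwa [card_pair hne.symm] at h10
  have h10 : ((#L - 1 - 1 : ℕ) : ℝ) = #L - 2 := by
    rw [Nat.sub_sub, Nat.cast_sub (by omega)]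
    norm_num
  rw [h10] at h4
  have h11 : (#M : ℝ) - 1 ≤ #(M \ M₂) := by
    have h12 : #(M ∩ M₂) + #(M \ M₂) = #M := card_inter_add_card_sdiff M M₂
    rw [inter_comm] at h12
    have h13 : ((#(M₂ ∩ M) : ℕ) : ℝ) + #(M \ M₂) = #M := by exact_mod_cast h12
    have h14 : (#(M₂ ∩ M) : ℝ) ≤ 1 := by exact_mod_cast hI
    linarith
  have h15 : (#M₂ : ℝ) - 1 ≤ #(M₂ \ M) := by
    have h12 : #(M₂ ∩ M) + #(M₂ \ M) = #M₂ := card_inter_add_card_sdiff M₂ M
    have h13 : ((#(M₂ ∩ M) : ℕ) : ℝ) + #(M₂ \ M) = #M₂ := by exact_mod_cast h12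
    have h14 : (#(M₂ ∩ M) : ℝ) ≤ 1 := by exact_mod_cast hI
    linarith
  have h16 : (2 : ℝ) ≤ #M := by exact_mod_cast h.two M hM
  have h17 : (2 : ℝ) ≤ #M₂ := by exact_mod_cast h.two M₂ hM₂
  have h18 : ((#M : ℝ) - 1) * (#M₂ - 1) ≤ (#(M \ M₂) : ℝ) * #(M₂ \ M) :=
    mul_le_mul h11 h15 (by linarith) (by linarith)
  linarith

/-- The second longest line has at most one point on the longest line. -/
lemma LinSpace.card_le_add_one (h : LinSpace P L) {M M₂ : Finset α} (hM : M ∈ L)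
    (hM₂ : M₂ ∈ L) (hne : M₂ ≠ M) : #M₂ + #M ≤ #P + 1 := by
  have hI := h.card_inter_le hM₂ hM hne
  have h1 : #(M₂ ∪ M) ≤ #P := card_le_card (union_subset (h.sub M₂ hM₂) (h.sub M hM))
  have h2 := card_union_add_card_inter M₂ M
  omega

end Pool.Agent.Lib.MP_359af5_co
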