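import Pool.Agent.Lib.MP_359af5_co.Planar

/-!
# The planar inequality: conclusion
-/

namespace Pool.Agent.Lib.MP_359af5_co

open Finset

variable {α : Type*} [DecidableEq α] {P : Finset α} {L : Finset (Finset α)}

/-- The weight of a line of size `k`. -/
noncomputable def wt (n l k : ℝ) : ℝ := l * (n - 2) / (2 * (k * (k - 1))) + (n - l) / k

lemma wt_anti {n l k k' : ℝ} (hn : 2 ≤ n) (hl : 0 ≤ l) (hln : l ≤ n) (hk : 2 ≤ k)
    (hkk : k ≤ k') : wt n l k' ≤ wt n l k := by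
  unfold wt
  have h1 : 0 ≤ l * (n - 2) := mul_nonneg hl (by linarith)
  have h2 : k * (k - 1) ≤ k' * (k' - 1) :=
    mul_le_mul hkk (by linarith) (by linarith) (by linarith)
  have h3 : 0 < k * (k - 1) := mul_pos (by linarith) (by linarith)
  apply add_le_add
  · exact div_le_div_of_nonneg_left h1 (by linarith) (by linarith)
  · exact div_le_div_of_nonneg_left (by linarith) (by linarith) hkk

lemma LinSpace.planar_of' (h : LinSpace P L) {M : Finset α} (hM : M ∈ L) (hMP : #M < #P)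
    (hn : 3 ≤ #P)
    (l : ℝ) (hl0 : 0 ≤ l) (hl : ∀ m ∈ L, m ≠ M → (#m : ℝ) ≤ l) (hln : l < #P) (D : ℝ)
    (hD : ∑ x ∈ M, ∑ y ∈ M, (lam L x - lam L y) ^ 2 = 2 * D)
    (hb : ∑ m ∈ L, wt #P l #m + 3 / 2 * (#P - l) + ((#M : ℝ) - l) / (#P - #M) * D ≤
      (#L : ℝ) ^ 2 * (1 - l / (2 * (#P - 1)))) : Planar P L := by
  apply h.planar_of hM hMP l hl hln D hD
  have h1 := h.sum_sq_le hn
  have h2 : ∑ m ∈ L, wt #P l #m = l * (((#P : ℝ) - 2) / 2 *
      ∑ m ∈ L, 1 / ((#m : ℝ) * (#m - 1))) + (#P - l) * ∑ m ∈ L, (1 : ℝ) / #m := by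
    unfold wt
    rw [sum_add_distrib, mul_sum, mul_sum, mul_sum]
    congr 1
    · apply sum_congr rfl
      intro m _
      rw [div_mul_div_comm, mul_div_assoc', mul_one]
    · apply sum_congr rfl
      intro m _
      rw [mul_one_div]
  rw [h2] at hb
  have h3 := mul_le_mul_of_nonneg_left h1 hl0
  have h4 : (#L : ℝ) ^ 2 * (1 - l / (2 * (#P - 1))) =
      (#L : ℝ) ^ 2 - l * ((#L : ℝ) ^ 2 / (2 * (#P - 1))) := by ring
  rw [h4] at hb
  linarith

lemma LinSpace.planar_two (h : LinSpace P L) {M : Finset α} (hM : M ∈ L) (hMP : #M < #P)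
    (hn : 3 ≤ #P) (hl : ∀ m ∈ L, m ≠ M → #m = 2) : Planar P L := by
  have hn' : (3 : ℝ) ≤ #P := by exact_mod_cast hn
  have hK : (2 : ℝ) ≤ #M := by exact_mod_cast h.two M hM
  have hKn : (#M : ℝ) + 1 ≤ #P := by exact_mod_cast hMP
  obtain ⟨D, hD, hD1, -, -⟩ := h.D_le hM (σ := #M * (#P - #M) / 2) (by
    rw [h.sigma_eq hM, ← h.sum_cd hM, sum_div]
    apply sum_congr rfl
    intro m hm
    rw [mem_erase] at hm
    have h1 := h.card_split (M := M) hm.2
    have h2 := hl m hm.2 hm.1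
    have h3 := h.card_inter_le hm.2 hM hm.1
    rw [h2] at h1 ⊢
    rcases Nat.lt_or_ge (#(m ∩ M)) 1 with h0 | h5
    · have hc0 : #(m ∩ M) = 0 := by omega
      rw [hc0]
      simp
    · have hc1 : #(m ∩ M) = 1 := by omega
      rw [hc1] at h1 ⊢
      have : (#(m ∩ (P \ M)) : ℝ) = 1 := by
        simp only [Nat.cast_one, Nat.cast_ofNat] at h1
        linarith
      rw [this]
      norm_num)
  rw [sub_self, mul_zero] at hD1
  have hb : (#M : ℝ) * (#M - 1) + 2 * (#L - 1) = #P * (#P - 1) := by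
    have h1 := h.sum_card_mul
    rw [← add_sum_erase L _ hM] at h1
    have h2 : ∑ m ∈ L.erase M, (#m : ℝ) * (#m - 1) = ∑ m ∈ L.erase M, 2 := by
      apply sum_congr rfl
      intro m hm
      rw [mem_erase] at hm
      rw [hl m hm.2 hm.1]
      norm_num
    rw [h2, sum_const, nsmul_eq_mul, card_erase_of_mem hM,
      Nat.cast_sub (Finset.card_pos.2 ⟨M, hM⟩)] at h1
    simp only [Nat.cast_one] at h1
    linarith
  apply h.planar_of' hM hMP hn 2 (by norm_num) _ (by linarith) D hD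
  · have h1 : ∑ m ∈ L, wt #P 2 #m = wt #P 2 #M + (#L - 1) * (#P - 2) := by
      rw [← add_sum_erase L _ hM]
      congr 1
      have h2 : ∑ m ∈ L.erase M, wt #P 2 #m = ∑ m ∈ L.erase M, ((#P : ℝ) - 2) := by
        apply sum_congr rfl
        intro m hm
        rw [mem_erase] at hm
        rw [hl m hm.2 hm.1]
        unfold wt
        norm_num
        ring
      rw [h2, sum_const, nsmul_eq_mul, card_erase_of_mem hM,
        Nat.cast_sub (Finset.card_pos.2 ⟨M, hM⟩)]
      simp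
    rw [h1]
    have h2 : ((#M : ℝ) - 2) / (#P - #M) * D ≤ 0 := by
      apply mul_nonpos_of_nonneg_of_nonpos
      · exact div_nonneg (by linarith) (by linarith)
      · exact hD1
    have h3 : (#L : ℝ) ^ 2 * (1 - 2 / (2 * (#P - 1))) = (#P - 2) * (#L ^ 2 / (#P - 1)) := by
      have : (#P : ℝ) - 1 ≠ 0 := by linarith
      field_simp
      ring
    rw [h3]
    rcases Nat.lt_or_ge 2 (#M) with h4 | h4
    · have h4' : (3 : ℝ) ≤ #M := by exact_mod_cast h4
      have h5 := wt_anti (n := #P) (l := 2) (by linarith) (by norm_num) (by linarith)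
        (by norm_num) h4'
      have h6 : wt #P 2 3 = ((#P : ℝ) - 2) / 2 := by
        unfold wt
        ring
      rw [h6] at h5
      have h7 : (#P : ℝ) ≤ #L := by nlinarith
      have h8 : (#L : ℝ) + 1 ≤ #L ^ 2 / (#P - 1) := by
        rw [le_div_iff₀ (by linarith)]
        nlinarith
      have h9 : ((#P : ℝ) - 2) * (#L + 1) ≤ (#P - 2) * (#L ^ 2 / (#P - 1)) :=
        mul_le_mul_of_nonneg_left h8 (by linarith)
      linarith
    · have h4' : #M = 2 := by
        have := h.two M hM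
        omega
      rw [h4'] at hb ⊢
      have h6 : wt (#P : ℝ) 2 ((2 : ℕ) : ℝ) = (#P : ℝ) - 2 := by
        unfold wt
        push_cast
        ring
      rw [h4'] at h2
      rw [h6]
      push_cast at hb
      have h8 : (#L : ℝ) + 3 / 2 ≤ #L ^ 2 / (#P - 1) := by
        rw [le_div_iff₀ (by linarith)]
        have h9 : (#L : ℝ) = #P * (#P - 1) / 2 := by linarith
        rw [h9]
        have h10 : 0 ≤ ((#P : ℝ) - 1) * (#P - 3) * (#P ^ 2 - #P + #P + 2) := by
          apply mul_nonneg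
          · exact mul_nonneg (by linarith) (by linarith)
          · nlinarith
        nlinarith
      have h9 : ((#P : ℝ) - 2) * (#L + 3 / 2) ≤ (#P - 2) * (#L ^ 2 / (#P - 1)) :=
        mul_le_mul_of_nonneg_left h8 (by linarith)
      linarith
  · intro m hm hne
    rw [hl m hm hne]
    norm_num

lemma LinSpace.planar_three (h : LinSpace P L) {M M₂ : Finset α} (hM : M ∈ L)
    (hMP : #M < #P) (hM₂ : M₂ ∈ L) (hne : M₂ ≠ M) (h3 : 3 ≤ #M₂) (hle : #M₂ ≤ #M)
    (hl : ∀ m ∈ L, m ≠ M → #m ≤ #M₂)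
    (hMel : ∑ m ∈ L, #m + 3 ≤ 3 * #L) : Planar P L := by
  obtain ⟨t, ht⟩ : ∃ t, #P = #M + t := ⟨#P - #M, by omega⟩
  have ht0 : 1 ≤ t := by omega
  have hlt : #M₂ ≤ t + 1 := by
    have := h.card_le_add_one hM hM₂ hne
    omega
  have hb1 := h.melchior_bound hM hMel
  have hb4 := h.two_lines hM hM₂ hne
  have hσ1 := h.sigma_deficit hM
  have hσ2 := h.sigma_le hM
  obtain ⟨D, hD, hD1, hσ3, hσ4⟩ := h.D_le hM rfl
  set σ := ∑ x ∈ M, (lam L x - 1 / #M) with hσ
  have ht' : (#P : ℝ) = #M + t := by exact_mod_cast ht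
  rw [ht', add_sub_cancel_left] at hb1 hσ1 hD1 hσ4
  have hb1' : #M * (t + 1) + 2 ≤ 2 * #L := by exact_mod_cast hb1
  have hM1 : 1 ≤ #M := by omega
  have hM21 : 1 ≤ #M₂ := by omega
  have hb4' : 2 + (#M - 1) * (#M₂ - 1) ≤ #L := by
    have : ((2 + (#M - 1) * (#M₂ - 1) : ℕ) : ℝ) ≤ #L := by
      rw [Nat.cast_add, Nat.cast_mul, Nat.cast_sub hM1, Nat.cast_sub hM21]
      simpa using hb4
    exact_mod_cast this
  have hK3 : (3 : ℝ) ≤ #M := by exact_mod_cast (h3.trans hle)
  have hl3 : (3 : ℝ) ≤ #M₂ := by exact_mod_cast h3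
  have hlK : (#M₂ : ℝ) ≤ #M := by exact_mod_cast hle
  have ht1 : (1 : ℝ) ≤ t := by exact_mod_cast ht0
  have hn : 3 ≤ #P := by omega
  have hn' : (3 : ℝ) ≤ #P := by exact_mod_cast hn
  -- the sum of the weights
  have hwt : ∑ m ∈ L, wt #P #M₂ #m ≤ (#L - 2) * wt #P #M₂ 2 + 2 * wt #P #M₂ 3 := by
    have hM₂' : M₂ ∈ L.erase M := mem_erase.2 ⟨hne, hM₂⟩
    rw [← add_sum_erase L _ hM, ← add_sum_erase _ _ hM₂']
    have h4 := wt_anti (n := #P) (l := #M₂) (by linarith) (by linarith) (by linarith)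
        (by norm_num) hK3
    have h5 := wt_anti (n := #P) (l := #M₂) (by linarith) (by linarith) (by linarith)
        (by norm_num) hl3
    have h6 : ∑ m ∈ (L.erase M).erase M₂, wt #P #M₂ #m ≤
        ∑ m ∈ (L.erase M).erase M₂, wt #P #M₂ 2 := by
      apply sum_le_sum
      intro m hm
      rw [mem_erase, mem_erase] at hm
      exact wt_anti (by linarith) (by linarith) (by linarith) (le_refl 2)
        (by exact_mod_cast h.two m hm.2.2)
    rw [sum_const, nsmul_eq_mul, card_erase_of_mem hM₂', card_erase_of_mem hM] at h6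
    have h9 : 2 ≤ #L := by omega
    have h10 : ((#L - 1 - 1 : ℕ) : ℝ) = #L - 2 := by
      rw [Nat.sub_sub, Nat.cast_sub (by omega)]
      norm_num
    rw [h10] at h6
    linarith
  have hw2 : wt (#P : ℝ) #M₂ 2 = #M₂ * (#P - 2) / 4 + (#P - #M₂) / 2 := by
    unfold wt
    ring
  have hw3 : wt (#P : ℝ) #M₂ 3 = #M₂ * (#P - 2) / 12 + (#P - #M₂) / 3 := by
    unfold wt
    ring
  apply h.planar_of' hM hMP hn #M₂ (by linarith) _ (by linarith) D hD
  · refine (add_le_add (add_le_add hwt le_rfl) le_rfl).trans ?_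
    rw [hw2, hw3, ht', add_sub_cancel_left]
    have hN : 0 < (#M : ℝ) + t - 1 := by linarith
    rcases le_total (#M) t with hKt | hKt
    · have hF := F1_nonneg h3 hle hKt hb1' hb4'
      have hD2 : D ≤ (#M : ℝ) ^ 2 * t ^ 2 / 16 := by nlinarith [sq_nonneg (σ - #M * t / 4)]
      have hD3 : ((#M : ℝ) - #M₂) / t * D ≤ ((#M : ℝ) - #M₂) * #M ^ 2 * t / 16 := by
        have h4 : 0 ≤ ((#M : ℝ) - #M₂) / t := div_nonneg (by linarith) (by linarith)
        have h5 := mul_le_mul_of_nonneg_left hD2 h4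
        have h6 : ((#M : ℝ) - #M₂) / t * ((#M : ℝ) ^ 2 * t ^ 2 / 16) =
          ((#M : ℝ) - #M₂) * #M ^ 2 * t / 16 := by
          have : (t : ℝ) ≠ 0 := by linarith
          field_simp
        rwa [h6] at h5
      have h7 : (#L : ℝ) ^ 2 * (1 - #M₂ / (2 * (#M + t - 1))) -
          (((#L : ℝ) - 2) * (#M₂ * (#M + t - 2) / 4 + (#M + t - #M₂) / 2) +
          2 * (#M₂ * (#M + t - 2) / 12 + (#M + t - #M₂) / 3) + 3 / 2 * (#M + t - #M₂) +
          ((#M : ℝ) - #M₂) * #M ^ 2 * t / 16) =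
          F1 #M t #M₂ #L / (96 * (#M + t - 1)) := by
        unfold F1
        field_simp
        ring
      have h8 : 0 ≤ F1 #M t #M₂ #L / (96 * (#M + t - 1)) := div_nonneg hF (by linarith)
      linarith
    · have hF := F2_nonneg h3 hle hlt hKt hb1' hb4'
      have hb0 : (1 : ℝ) ≤ #L := by
        have : 1 ≤ #L := by omega
        exact_mod_cast this
      have hD2 : D ≤ ((#L : ℝ) - 1) / 2 * (t * (t - 1) / 3) := by
        refine hD1.trans ?_
        apply mul_le_mul hσ2 hσ1 (by linarith) (by linarith)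
      have hD3 : ((#M : ℝ) - #M₂) / t * D ≤ ((#M : ℝ) - #M₂) * (#L - 1) * (t - 1) / 6 := by
        have h4 : 0 ≤ ((#M : ℝ) - #M₂) / t := div_nonneg (by linarith) (by linarith)
        have h5 := mul_le_mul_of_nonneg_left hD2 h4
        have h6 : ((#M : ℝ) - #M₂) / t * (((#L : ℝ) - 1) / 2 * (t * (t - 1) / 3)) =
          ((#M : ℝ) - #M₂) * (#L - 1) * (t - 1) / 6 := by
          have : (t : ℝ) ≠ 0 := by linarith
          field_simp
          ring
        rwa [h6] at h5
      have h7 : (#L : ℝ) ^ 2 * (1 - #M₂ / (2 * (#M + t - 1))) -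
          (((#L : ℝ) - 2) * (#M₂ * (#M + t - 2) / 4 + (#M + t - #M₂) / 2) +
          2 * (#M₂ * (#M + t - 2) / 12 + (#M + t - #M₂) / 3) + 3 / 2 * (#M + t - #M₂) +
          ((#M : ℝ) - #M₂) * (#L - 1) * (t - 1) / 6) =
          F2 #M t #M₂ #L / (96 * (#M + t - 1)) := by
        unfold F2
        field_simp
        ring
      have h8 : 0 ≤ F2 #M t #M₂ #L / (96 * (#M + t - 1)) := div_nonneg hF (by linarith)
      linarith
  · intro m hm hne
    exact_mod_cast hl m hm hne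

/-- The planar inequality for linear spaces satisfying the Melchior inequality. -/
theorem LinSpace.planar (h : LinSpace P L) (hP : P ∉ L) (h2 : 2 ≤ #P)
    (hMel : ∑ m ∈ L, #m + 3 ≤ 3 * #L) : Planar P L := by
  obtain ⟨x, hx, y, hy, hxy⟩ := one_lt_card.1 (by omega : 1 < #P)
  obtain ⟨m₀, hm₀, -, -⟩ := h.cover x hx y hy hxy
  obtain ⟨M, hM, hmax⟩ := exists_max_image L card ⟨m₀, hm₀⟩
  have hMP : #M < #P := by
    apply card_lt_card
    refine ⟨h.sub M hM, fun hh => hP ?_⟩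
    rwa [← Subset.antisymm (h.sub M hM) hh]
  have hM2 := h.two M hM
  have hn : 3 ≤ #P := by omega
  have hne : (L.erase M).Nonempty := by
    rw [nonempty_iff_ne_empty]
    intro he
    have h1 := h.melchior_bound hM hMel
    have h3 : #L = 1 := by
      have := card_erase_add_one hM
      rw [he, card_empty] at this
      omega
    rw [h3] at h1
    have h4 : (2 : ℝ) ≤ #M := by exact_mod_cast hM2
    have h5 : (#M : ℝ) + 1 ≤ #P := by exact_mod_cast hMP
    have h6 : 0 ≤ (#M : ℝ) * (#P - #M - 1) := mul_nonneg (by linarith) (by linarith)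
    push_cast at h1
    linarith
  obtain ⟨M₂, hM₂, hmax₂⟩ := exists_max_image (L.erase M) card hne
  rw [mem_erase] at hM₂
  rcases Nat.lt_or_ge (#M₂) 3 with h3 | h3
  · apply h.planar_two hM hMP hn
    intro m hm hmM
    have h4 := hmax₂ m (mem_erase.2 ⟨hmM, hm⟩)
    have h5 := h.two m hm
    omega
  · exact h.planar_three hM hMP hM₂.2 hM₂.1 h3 (hmax M₂ hM₂.2)
      (fun m hm hmM => hmax₂ m (mem_erase.2 ⟨hmM, hm⟩)) hMel

end Pool.Agent.Lib.MP_359af5_co
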