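import Pool.Agent.Lib.MP_359af5_co.Basic

/-!
# The rank 4 step: reduction of the points-lines-planes inequality to planes
-/

namespace Pool.Agent.Lib.MP_359af5_co

open Finset

variable {α : Type*} [DecidableEq α]

section Lin

variable {P : Finset α} {L : Finset (Finset α)}

lemma LinSpace.card_pos (h : LinSpace P L) {m : Finset α} (hm : m ∈ L) : (0 : ℝ) < #m := by
  have := h.two m hm
  exact_mod_cast (by omega : 0 < #m)

lemma LinSpace.card_filter_eq_one (h : LinSpace P L) {x y : α} (hx : x ∈ P) (hy : y ∈ P)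
    (hxy : x ≠ y) : #{m ∈ L | x ∈ m ∧ y ∈ m} = 1 := by
  rw [card_eq_one]
  obtain ⟨m, hm, hxm, hym⟩ := h.cover x hx y hy hxy
  refine ⟨m, ?_⟩
  ext m'
  simp only [mem_filter, mem_singleton]
  constructor
  · rintro ⟨hm', h1, h2⟩
    exact h.uniq m' hm' m hm x y hxy h1 h2 hxm hym
  · rintro rfl
    exact ⟨hm, hxm, hym⟩

/-- Summing a function over ordered pairs of points is the same as summing over lines. -/
lemma LinSpace.sum_pairs (h : LinSpace P L) (g : α → α → ℝ) (hg : ∀ x, g x x = 0) :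
    ∑ m ∈ L, ∑ x ∈ m, ∑ y ∈ m, g x y = ∑ x ∈ P, ∑ y ∈ P, g x y := by
  have h1 : ∀ m ∈ L, ∑ x ∈ m, ∑ y ∈ m, g x y =
      ∑ x ∈ P, ∑ y ∈ P, if x ∈ m ∧ y ∈ m then g x y else 0 := by
    intro m hm
    have hsub := h.sub m hm
    rw [← sum_subset hsub]
    · apply sum_congr rfl
      intro x hx
      rw [← sum_subset hsub]
      · apply sum_congr rfl
        intro y hy
        rw [if_pos ⟨hx, hy⟩]
      · intro y _ hy
        rw [if_neg (fun hh => hy hh.2)]
    · intro x _ hx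
      apply sum_eq_zero
      intro y _
      rw [if_neg (fun hh => hx hh.1)]
  rw [sum_congr rfl h1, sum_comm]
  apply sum_congr rfl
  intro x hx
  rw [sum_comm]
  apply sum_congr rfl
  intro y hy
  by_cases hxy : x = y
  · subst hxy
    rw [hg]
    simp
  · rw [← sum_filter, sum_const, h.card_filter_eq_one hx hy hxy, one_smul]

/-- Double counting flags with a weight. -/
lemma LinSpace.sum_flags (h : LinSpace P L) (f : α → Finset α → ℝ) :
    ∑ m ∈ L, ∑ x ∈ m, f x m = ∑ x ∈ P, ∑ m ∈ L with x ∈ m, f x m := by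
  rw [sum_comm' (t' := P) (s' := fun x => {m ∈ L | x ∈ m})]
  intro m x
  constructor
  · rintro ⟨hm, hx⟩
    exact ⟨mem_filter.2 ⟨hm, hx⟩, h.sub m hm hx⟩
  · rintro ⟨hm, _⟩
    rw [mem_filter] at hm
    exact hm

lemma LinSpace.sum_lam (h : LinSpace P L) : ∑ x ∈ P, lam L x = #L := by
  unfold lam
  rw [← h.sum_flags (fun _ m => (1 : ℝ) / #m)]
  have : ∀ m ∈ L, ∑ _x ∈ m, (1 : ℝ) / #m = 1 := by
    intro m hm
    rw [sum_const, nsmul_eq_mul]
    exact mul_one_div_cancel (h.card_pos hm).ne'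
  rw [sum_congr rfl this]
  simp

lemma LinSpace.sum_lam_mul (h : LinSpace P L) :
    ∑ m ∈ L, ∑ x ∈ m, (1 : ℝ) / #m * lam L x = ∑ x ∈ P, lam L x ^ 2 := by
  rw [h.sum_flags (fun x m => (1 : ℝ) / #m * lam L x)]
  apply sum_congr rfl
  intro x _
  rw [← sum_mul, sq]
  rfl

end Lin

/-- The sum of squared differences over ordered pairs. -/
lemma sum_sq_diff (P : Finset α) (f : α → ℝ) :
    ∑ x ∈ P, ∑ y ∈ P, (f x - f y) ^ 2 = 2 * (#P * ∑ x ∈ P, f x ^ 2 - (∑ x ∈ P, f x) ^ 2) := by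
  have h1 : ∀ x ∈ P, ∑ y ∈ P, (f x - f y) ^ 2 =
      #P * f x ^ 2 - 2 * f x * ∑ y ∈ P, f y + ∑ y ∈ P, f y ^ 2 := by
    intro x _
    rw [mul_sum, ← nsmul_eq_mul, ← sum_const, ← sum_sub_distrib, ← sum_add_distrib]
    apply sum_congr rfl
    intro y _
    ring
  rw [sum_congr rfl h1, sum_add_distrib, sum_sub_distrib, ← mul_sum, sum_const, nsmul_eq_mul,
    ← sum_mul, ← mul_sum]
  ring

section Rank4

variable {P : Finset α} {L J : Finset (Finset α)}

lemma Geom.linSpace (G : Geom P L J) {j : Finset α} (hj : j ∈ J) :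
    LinSpace j (L.filter (· ⊆ j)) where
  sub := by
    intro m hm
    exact (mem_filter.1 hm).2
  two := by
    intro m hm
    exact G.lin.two m (mem_filter.1 hm).1
  cover := by
    intro x hx y hy hxy
    obtain ⟨m, hm, h1, h2⟩ := G.lin.cover x (G.jsub j hj hx) y (G.jsub j hj hy) hxy
    exact ⟨m, mem_filter.2 ⟨hm, G.jflat j hj m hm x y hxy h1 h2 hx hy⟩, h1, h2⟩
  uniq := by
    intro m hm m' hm'
    exact G.lin.uniq m (mem_filter.1 hm).1 m' (mem_filter.1 hm').1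

/-- Two distinct lines through a common point lie in exactly one common plane. -/
lemma Geom.card_planes (G : Geom P L J) {m m' : Finset α} (hm : m ∈ L) (hm' : m' ∈ L)
    (hne : m ≠ m') {x : α} (hx : x ∈ m) (hx' : x ∈ m') : #{j ∈ J | m ⊆ j ∧ m' ⊆ j} = 1 := by
  obtain ⟨z, hz, hzx⟩ : ∃ z ∈ m', z ≠ x := by
    have := G.lin.two m' hm'
    exact exists_mem_ne (by omega) x
  have hzm : z ∉ m := fun hzm => hne (G.lin.uniq m hm m' hm' z x hzx hzm hx hz hx')
  obtain ⟨j, hj, hmj, hzj⟩ := G.jcover m hm z (G.lin.sub m' hm' hz) hzm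
  rw [card_eq_one]
  refine ⟨j, ?_⟩
  ext j'
  simp only [mem_filter, mem_singleton]
  constructor
  · rintro ⟨hj', h1, h2⟩
    exact G.juniq j' hj' j hj m hm z hzm h1 (h2 hz) hmj hzj
  · rintro rfl
    exact ⟨hj, hmj, G.jflat _ hj m' hm' z x hzx hz hx' hzj (hmj hx)⟩

lemma Geom.card_lt (G : Geom P L J) {m j : Finset α} (hm : m ∈ L) (hj : j ∈ J) (hmj : m ⊆ j) :
    (#m : ℝ) < #j := by
  have h1 : #m < #j := by
    apply card_lt_card
    refine ⟨hmj, G.jline j hj m hm⟩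
  exact_mod_cast h1

/-- The decomposition of `lam` along the planes through a line. -/
lemma Geom.lam_eq (G : Geom P L J) {m : Finset α} (hm : m ∈ L) {x : α} (hx : x ∈ m) :
    lam L x = 1 / #m + ∑ j ∈ J with m ⊆ j, (lam (L.filter (· ⊆ j)) x - 1 / #m) := by
  have h1 : ∀ j ∈ J.filter (m ⊆ ·), lam (L.filter (· ⊆ j)) x - 1 / #m =
      ∑ m' ∈ L with (x ∈ m' ∧ m' ≠ m), if m' ⊆ j then (1 : ℝ) / #m' else 0 := by
    intro j hj
    rw [mem_filter] at hj
    unfold lam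
    rw [← sum_filter, filter_filter, filter_filter]
    have h2 : {m' ∈ L | m' ⊆ j ∧ x ∈ m'} =
        insert m {m' ∈ L | (x ∈ m' ∧ m' ≠ m) ∧ m' ⊆ j} := by
      ext m'
      simp only [mem_filter, mem_insert]
      constructor
      · rintro ⟨a, b, c⟩
        by_cases hmm : m' = m
        · exact Or.inl hmm
        · exact Or.inr ⟨a, ⟨c, hmm⟩, b⟩
      · rintro (rfl | ⟨a, ⟨b, _⟩, c⟩)
        · exact ⟨hm, hj.2, hx⟩
        · exact ⟨a, c, b⟩
    rw [h2, sum_insert (by simp)]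
    ring
  rw [sum_congr rfl h1, sum_comm]
  have h3 : ∀ m' ∈ L.filter (fun m' => x ∈ m' ∧ m' ≠ m),
      (∑ j ∈ J with m ⊆ j, if m' ⊆ j then (1 : ℝ) / #m' else 0) = 1 / #m' := by
    intro m' hm'
    rw [mem_filter] at hm'
    rw [← sum_filter, filter_filter, sum_const,
      G.card_planes hm hm'.1 (Ne.symm hm'.2.2) hx hm'.2.1, one_smul]
  rw [sum_congr rfl h3]
  unfold lam
  have h4 : {m' ∈ L | x ∈ m'} = insert m {m' ∈ L | x ∈ m' ∧ m' ≠ m} := by
    ext m'
    simp only [mem_filter, mem_insert]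
    constructor
    · rintro ⟨a, b⟩
      by_cases hmm : m' = m
      · exact Or.inl hmm
      · exact Or.inr ⟨a, b, hmm⟩
    · rintro (rfl | ⟨a, b, _⟩)
      · exact ⟨hm, hx⟩
      · exact ⟨a, b⟩
  rw [h4, sum_insert (by simp)]

lemma Geom.sum_card (G : Geom P L J) {m : Finset α} (hm : m ∈ L) :
    ∑ j ∈ J with m ⊆ j, ((#j : ℝ) - #m) = #P - #m := by
  have h1 : ∀ j ∈ J.filter (m ⊆ ·), ((#j : ℝ) - #m) =
      ∑ z ∈ P \ m, if z ∈ j then (1 : ℝ) else 0 := by
    intro j hj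
    rw [mem_filter] at hj
    rw [← sum_filter, sum_const, nsmul_eq_mul, mul_one]
    have h2 : {z ∈ P \ m | z ∈ j} = j \ m := by
      ext z
      simp only [mem_filter, mem_sdiff]
      constructor
      · rintro ⟨⟨_, b⟩, c⟩
        exact ⟨c, b⟩
      · rintro ⟨a, b⟩
        exact ⟨⟨G.jsub j hj.1 a, b⟩, a⟩
    rw [h2, card_sdiff_of_subset hj.2, Nat.cast_sub (card_le_card hj.2)]
  rw [sum_congr rfl h1, sum_comm]
  have h3 : ∀ z ∈ P \ m, (∑ j ∈ J with m ⊆ j, if z ∈ j then (1 : ℝ) else 0) = 1 := by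
    intro z hz
    rw [mem_sdiff] at hz
    rw [← sum_filter, filter_filter, sum_const, nsmul_eq_mul, mul_one]
    have : #{j ∈ J | m ⊆ j ∧ z ∈ j} = 1 := by
      rw [card_eq_one]
      obtain ⟨j, hj, hmj, hzj⟩ := G.jcover m hm z hz.1 hz.2
      refine ⟨j, ?_⟩
      ext j'
      simp only [mem_filter, mem_singleton]
      constructor
      · rintro ⟨hj', h1, h2⟩
        exact G.juniq j' hj' j hj m hm z hz.2 h1 h2 hmj hzj
      · rintro rfl
        exact ⟨hj, hmj, hzj⟩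
    rw [this]
    simp
  rw [sum_congr rfl h3, sum_const, nsmul_eq_mul, mul_one, card_sdiff_of_subset (G.lin.sub m hm),
    Nat.cast_sub (card_le_card (G.lin.sub m hm))]

lemma Geom.diff_sq_le (G : Geom P L J) {m : Finset α} (hm : m ∈ L) {x y : α} (hx : x ∈ m)
    (hy : y ∈ m) :
    (lam L x - lam L y) ^ 2 ≤ #P * ∑ j ∈ J with m ⊆ j,
      (lam (L.filter (· ⊆ j)) x - lam (L.filter (· ⊆ j)) y) ^ 2 / ((#j : ℝ) - #m) := by
  have h1 : lam L x - lam L y = ∑ j ∈ J with m ⊆ j,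
      (lam (L.filter (· ⊆ j)) x - lam (L.filter (· ⊆ j)) y) := by
    rw [G.lam_eq hm hx, G.lam_eq hm hy, sum_sub_distrib, sum_sub_distrib, sum_sub_distrib]
    ring
  have hpos : ∀ j ∈ J.filter (m ⊆ ·), (0 : ℝ) < (#j : ℝ) - #m := by
    intro j hj
    rw [mem_filter] at hj
    have := G.card_lt hm hj.1 hj.2
    linarith
  have h2 := sq_sum_div_le_sum_sq_div (J.filter (m ⊆ ·))
    (fun j => lam (L.filter (· ⊆ j)) x - lam (L.filter (· ⊆ j)) y)
    (g := fun j => (#j : ℝ) - #m) hpos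
  rw [← h1, G.sum_card hm] at h2
  set T := ∑ j ∈ J with m ⊆ j,
      (lam (L.filter (· ⊆ j)) x - lam (L.filter (· ⊆ j)) y) ^ 2 / ((#j : ℝ) - #m) with hT
  have hT0 : 0 ≤ T := sum_nonneg fun j hj => div_nonneg (sq_nonneg _) (hpos j hj).le
  have hm0 := G.lin.card_pos hm
  rcases (card_le_card (G.lin.sub m hm)).lt_or_eq with hlt | heq
  · have h3 : (0 : ℝ) < #P - #m := by
      have : (#m : ℝ) < #P := by exact_mod_cast hlt
      linarith
    rw [div_le_iff₀ h3] at h2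
    nlinarith
  · have hP : m = P := eq_of_subset_of_card_le (G.lin.sub m hm) heq.ge
    have hJ : J.filter (m ⊆ ·) = ∅ := by
      apply filter_eq_empty_iff.2
      intro j hj _
      exact G.jline j hj m hm (hP ▸ G.jsub j hj)
    rw [h1, hJ, sum_empty]
    have : (0 : ℝ) ≤ #P := Nat.cast_nonneg _
    nlinarith

/-- Points, lines, planes from the planar inequality. -/
theorem Geom.main (G : Geom P L J) (hpl : ∀ j ∈ J, Planar j (L.filter (· ⊆ j))) :
    (#P : ℝ) * (3 / 2 * #J) ≤ (#L : ℝ) ^ 2 := by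
  have hP0 : (0 : ℝ) ≤ #P := Nat.cast_nonneg _
  -- energy identity
  have hE : ∑ x ∈ P, lam L x ^ 2 =
      ∑ m ∈ L, (1 : ℝ) / #m + ∑ j ∈ J, locEn j (L.filter (· ⊆ j)) := by
    rw [← G.lin.sum_lam_mul]
    have h1 : ∀ m ∈ L, ∑ x ∈ m, (1 : ℝ) / #m * lam L x =
        1 / #m + ∑ j ∈ J, if m ⊆ j then
          ∑ x ∈ m, (1 : ℝ) / #m * (lam (L.filter (· ⊆ j)) x - 1 / #m) else 0 := by
      intro m hm
      have hm0 := G.lin.card_pos hm
      have h2 : ∀ x ∈ m, (1 : ℝ) / #m * lam L x = 1 / #m * (1 / #m) +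
          ∑ j ∈ J with m ⊆ j, 1 / #m * (lam (L.filter (· ⊆ j)) x - 1 / #m) := by
        intro x hx
        rw [G.lam_eq hm hx, mul_add, mul_sum]
      rw [sum_congr rfl h2, sum_add_distrib, sum_const, nsmul_eq_mul, sum_comm, sum_filter]
      congr 1
      field_simp
    rw [sum_congr rfl h1, sum_add_distrib, sum_comm]
    congr 1
    apply sum_congr rfl
    intro j hj
    rw [← sum_filter]
    unfold locEn
    have hj' := G.linSpace hj
    rw [← hj'.sum_lam_mul, ← sum_sub_distrib]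
    apply sum_congr rfl
    intro m hm
    have hm0 := hj'.card_pos hm
    have : ∀ x ∈ m, (1 : ℝ) / #m * (lam (L.filter (· ⊆ j)) x - 1 / #m) =
        1 / #m * lam (L.filter (· ⊆ j)) x - 1 / #m * (1 / #m) := by
      intro x _
      ring
    rw [sum_congr rfl this, sum_sub_distrib, sum_const, nsmul_eq_mul]
    congr 1
    field_simp
  -- variance inequality
  have hV : #P * ∑ x ∈ P, lam L x ^ 2 - (#L : ℝ) ^ 2 ≤
      #P * ∑ j ∈ J, locVar j (L.filter (· ⊆ j)) := by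
    have h1 := sum_sq_diff P (lam L)
    rw [G.lin.sum_lam, ← G.lin.sum_pairs (fun x y => (lam L x - lam L y) ^ 2)
      (fun x => by ring)] at h1
    have h2 : ∑ m ∈ L, ∑ x ∈ m, ∑ y ∈ m, (lam L x - lam L y) ^ 2 ≤
        ∑ m ∈ L, ∑ x ∈ m, ∑ y ∈ m, #P * ∑ j ∈ J with m ⊆ j,
          (lam (L.filter (· ⊆ j)) x - lam (L.filter (· ⊆ j)) y) ^ 2 / ((#j : ℝ) - #m) := by
      apply sum_le_sum
      intro m hm
      apply sum_le_sum
      intro x hx
      apply sum_le_sum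
      intro y hy
      exact G.diff_sq_le hm hx hy
    have h3 : ∑ m ∈ L, ∑ x ∈ m, ∑ y ∈ m, #P * ∑ j ∈ J with m ⊆ j,
          (lam (L.filter (· ⊆ j)) x - lam (L.filter (· ⊆ j)) y) ^ 2 / ((#j : ℝ) - #m) =
        2 * (#P * ∑ j ∈ J, locVar j (L.filter (· ⊆ j))) := by
      have h4 : ∀ m ∈ L, ∑ x ∈ m, ∑ y ∈ m, (#P : ℝ) * ∑ j ∈ J with m ⊆ j,
          (lam (L.filter (· ⊆ j)) x - lam (L.filter (· ⊆ j)) y) ^ 2 / ((#j : ℝ) - #m) =
          #P * ∑ j ∈ J, if m ⊆ j then (∑ x ∈ m, ∑ y ∈ m,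
            (lam (L.filter (· ⊆ j)) x - lam (L.filter (· ⊆ j)) y) ^ 2) / ((#j : ℝ) - #m)
            else 0 := by
        intro m _
        simp_rw [← mul_sum]
        congr 1
        rw [← sum_filter]
        have h5 : ∀ x ∈ m, ∑ y ∈ m, ∑ j ∈ J with m ⊆ j,
            (lam (L.filter (· ⊆ j)) x - lam (L.filter (· ⊆ j)) y) ^ 2 / ((#j : ℝ) - #m) =
            ∑ j ∈ J with m ⊆ j, ∑ y ∈ m,
            (lam (L.filter (· ⊆ j)) x - lam (L.filter (· ⊆ j)) y) ^ 2 / ((#j : ℝ) - #m) :=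
          fun x _ => sum_comm
        rw [sum_congr rfl h5, sum_comm]
        apply sum_congr rfl
        intro j _
        rw [sum_div]
        apply sum_congr rfl
        intro x _
        rw [sum_div]
      rw [sum_congr rfl h4, ← mul_sum, sum_comm]
      have h6 : ∀ j ∈ J, (∑ m ∈ L, if m ⊆ j then (∑ x ∈ m, ∑ y ∈ m,
            (lam (L.filter (· ⊆ j)) x - lam (L.filter (· ⊆ j)) y) ^ 2) / ((#j : ℝ) - #m)
            else 0) = 2 * locVar j (L.filter (· ⊆ j)) := by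
        intro j _
        rw [← sum_filter]
        unfold locVar
        rw [mul_sum]
        apply sum_congr rfl
        intro m _
        rw [mul_div_assoc', mul_div_mul_left _ _ (two_ne_zero)]
      rw [sum_congr rfl h6, ← mul_sum]
      ring
    linarith
  have hS : (3 : ℝ) / 2 * #J ≤ ∑ j ∈ J, (locEn j (L.filter (· ⊆ j)) -
      locVar j (L.filter (· ⊆ j))) := by
    have : ∑ j ∈ J, (3 : ℝ) / 2 ≤ ∑ j ∈ J, (locEn j (L.filter (· ⊆ j)) -
      locVar j (L.filter (· ⊆ j))) := by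
      apply sum_le_sum
      intro j hj
      have := hpl j hj
      unfold Planar at this
      linarith
    rw [sum_const, nsmul_eq_mul] at this
    linarith
  rw [sum_sub_distrib] at hS
  have hm0 : (0 : ℝ) ≤ ∑ m ∈ L, (1 : ℝ) / #m :=
    sum_nonneg fun m _ => by positivity
  nlinarith

end Rank4

end Pool.Agent.Lib.MP_359af5_co
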