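import Pool.Agent.Lib.MP_359af5_co.Rank4
import Pool.Agent.Lib.MP_359af5_co.Count

/-!
# The sharp form of the points-lines-planes inequality and the case of equality
-/

namespace Pool.Agent.Lib.MP_359af5_co

open Finset

variable {α : Type*} [DecidableEq α] {P : Finset α} {L J : Finset (Finset α)}

/-- The inequality without loss. -/
theorem Geom.main_strong (G : Geom P L J) :
    (#P : ℝ) * ∑ j ∈ J, (locEn j (L.filter (· ⊆ j)) - locVar j (L.filter (· ⊆ j))) +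
      #P * ∑ m ∈ L, (1 : ℝ) / #m ≤ (#L : ℝ) ^ 2 := by
  have hP0 : (0 : ℝ) ≤ #P := Nat.cast_nonneg _
  -- energy identity
  have hE : ∑ x ∈ P, lam L x ^ 2 =
      ∑ m ∈ L, (1 : ℝ) / #m + ∑ j ∈ J, locEn j (L.filter (· ⊆ j)) := by
    rw [← G.lin.sum_lam_mul]
    have h1 : ∀ m ∈ L, ∑ x ∈ m, (1 : ℝ) / #m * lam L x =
        1 / #m + ∑ j ∈ J, if m ⊆ j then
          ∑ x ∈ m, (1 : ℝ) / #m * (lam (L.filter (· ⊆ j)) x - 1 / #m) else 0 := by
      intro m hm
      have hm0 := G.lin.card_pos hm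
      have h2 : ∀ x ∈ m, (1 : ℝ) / #m * lam L x = 1 / #m * (1 / #m) +
          ∑ j ∈ J with m ⊆ j, 1 / #m * (lam (L.filter (· ⊆ j)) x - 1 / #m) := by
        intro x hx
        rw [G.lam_eq hm hx, mul_add, mul_sum]
      rw [sum_congr rfl h2, sum_add_distrib, sum_const, nsmul_eq_mul, sum_comm, sum_filter]
      congr 1
      field_simp
    rw [sum_congr rfl h1, sum_add_distrib, sum_comm]
    congr 1
    apply sum_congr rfl
    intro j hj
    rw [← sum_filter]
    unfold locEn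
    have hj' := G.linSpace hj
    rw [← hj'.sum_lam_mul, ← sum_sub_distrib]
    apply sum_congr rfl
    intro m hm
    have hm0 := hj'.card_pos hm
    have : ∀ x ∈ m, (1 : ℝ) / #m * (lam (L.filter (· ⊆ j)) x - 1 / #m) =
        1 / #m * lam (L.filter (· ⊆ j)) x - 1 / #m * (1 / #m) := by
      intro x _
      ring
    rw [sum_congr rfl this, sum_sub_distrib, sum_const, nsmul_eq_mul]
    congr 1
    field_simp
  -- variance inequality
  have hV : #P * ∑ x ∈ P, lam L x ^ 2 - (#L : ℝ) ^ 2 ≤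
      #P * ∑ j ∈ J, locVar j (L.filter (· ⊆ j)) := by
    have h1 := sum_sq_diff P (lam L)
    rw [G.lin.sum_lam, ← G.lin.sum_pairs (fun x y => (lam L x - lam L y) ^ 2)
      (fun x => by ring)] at h1
    have h2 : ∑ m ∈ L, ∑ x ∈ m, ∑ y ∈ m, (lam L x - lam L y) ^ 2 ≤
        ∑ m ∈ L, ∑ x ∈ m, ∑ y ∈ m, #P * ∑ j ∈ J with m ⊆ j,
          (lam (L.filter (· ⊆ j)) x - lam (L.filter (· ⊆ j)) y) ^ 2 / ((#j : ℝ) - #m) := by
      apply sum_le_sum
      intro m hm
      apply sum_le_sum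
      intro x hx
      apply sum_le_sum
      intro y hy
      exact G.diff_sq_le hm hx hy
    have h3 : ∑ m ∈ L, ∑ x ∈ m, ∑ y ∈ m, #P * ∑ j ∈ J with m ⊆ j,
          (lam (L.filter (· ⊆ j)) x - lam (L.filter (· ⊆ j)) y) ^ 2 / ((#j : ℝ) - #m) =
        2 * (#P * ∑ j ∈ J, locVar j (L.filter (· ⊆ j))) := by
      have h4 : ∀ m ∈ L, ∑ x ∈ m, ∑ y ∈ m, (#P : ℝ) * ∑ j ∈ J with m ⊆ j,
          (lam (L.filter (· ⊆ j)) x - lam (L.filter (· ⊆ j)) y) ^ 2 / ((#j : ℝ) - #m) =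
          #P * ∑ j ∈ J, if m ⊆ j then (∑ x ∈ m, ∑ y ∈ m,
            (lam (L.filter (· ⊆ j)) x - lam (L.filter (· ⊆ j)) y) ^ 2) / ((#j : ℝ) - #m)
            else 0 := by
        intro m _
        simp_rw [← mul_sum]
        congr 1
        rw [← sum_filter]
        have h5 : ∀ x ∈ m, ∑ y ∈ m, ∑ j ∈ J with m ⊆ j,
            (lam (L.filter (· ⊆ j)) x - lam (L.filter (· ⊆ j)) y) ^ 2 / ((#j : ℝ) - #m) =
            ∑ j ∈ J with m ⊆ j, ∑ y ∈ m,
            (lam (L.filter (· ⊆ j)) x - lam (L.filter (· ⊆ j)) y) ^ 2 / ((#j : ℝ) - #m) :=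
          fun x _ => sum_comm
        rw [sum_congr rfl h5, sum_comm]
        apply sum_congr rfl
        intro j _
        rw [sum_div]
        apply sum_congr rfl
        intro x _
        rw [sum_div]
      rw [sum_congr rfl h4, ← mul_sum, sum_comm]
      have h6 : ∀ j ∈ J, (∑ m ∈ L, if m ⊆ j then (∑ x ∈ m, ∑ y ∈ m,
            (lam (L.filter (· ⊆ j)) x - lam (L.filter (· ⊆ j)) y) ^ 2) / ((#j : ℝ) - #m)
            else 0) = 2 * locVar j (L.filter (· ⊆ j)) := by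
        intro j _
        rw [← sum_filter]
        unfold locVar
        rw [mul_sum]
        apply sum_congr rfl
        intro m _
        rw [mul_div_assoc', mul_div_mul_left _ _ (two_ne_zero)]
      rw [sum_congr rfl h6, ← mul_sum]
      ring
    linarith
  rw [sum_sub_distrib]
  rw [hE] at hV
  nlinarith

lemma cs_aux {a : ℝ} (s : ℝ) (ha : 2 ≤ a) :
    (1 : ℝ) / a + s ^ 2 * (a * (a - 1)) - 2 * s =
        ((1 - s * a) ^ 2 + s ^ 2 * a ^ 2 * (a - 2)) / a := by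
  have : a ≠ 0 := by linarith
  field_simp
  ring

lemma cs_nonneg {a : ℝ} (s : ℝ) (ha : 2 ≤ a) :
    0 ≤ (1 : ℝ) / a + s ^ 2 * (a * (a - 1)) - 2 * s := by
  rw [cs_aux s ha]
  apply div_nonneg _ (by linarith)
  exact add_nonneg (sq_nonneg _) (mul_nonneg (mul_nonneg (sq_nonneg _) (sq_nonneg _))
    (by linarith))

lemma cs_zero {a s : ℝ} (hs : 0 < s) (ha : 2 ≤ a)
    (h : (1 : ℝ) / a + s ^ 2 * (a * (a - 1)) - 2 * s = 0) : a = 2 := by
  rw [cs_aux s ha, div_eq_zero_iff] at h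
  rcases h with h | h
  · have h4 : (0 : ℝ) ≤ a - 2 := by linarith
    have h7 : 0 < s ^ 2 * a ^ 2 := mul_pos (pow_pos hs 2) (pow_pos (by linarith) 2)
    have h5 : 0 ≤ s ^ 2 * a ^ 2 * (a - 2) := mul_nonneg h7.le h4
    have h8 : 0 ≤ (1 - s * a) ^ 2 := sq_nonneg _
    have h6 : s ^ 2 * a ^ 2 * (a - 2) = 0 := by linarith
    have := (mul_eq_zero.1 h6).resolve_left h7.ne'
    linarith
  · linarith

/-- Cauchy-Schwarz with the case of equality. -/
lemma LinSpace.cs (h : LinSpace P L) :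
    (#L : ℝ) ^ 2 ≤ (#P * (#P - 1)) * ∑ m ∈ L, (1 : ℝ) / #m ∧
    ((#L : ℝ) ^ 2 = (#P * (#P - 1)) * ∑ m ∈ L, (1 : ℝ) / #m → ∀ m ∈ L, #m = 2) := by
  rw [← h.sum_card_mul]
  have hm2 : ∀ m ∈ L, (2 : ℝ) ≤ #m := fun m hm => by exact_mod_cast h.two m hm
  rcases L.eq_empty_or_nonempty with rfl | hne
  · simp
  have hN0 : 0 < ∑ m ∈ L, (#m : ℝ) * (#m - 1) :=
    sum_pos (fun m hm => mul_pos (by linarith [hm2 m hm]) (by linarith [hm2 m hm])) hne
  have hL0 : (0 : ℝ) < #L := Nat.cast_pos.2 (Finset.card_pos.2 hne)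
  generalize hN : ∑ m ∈ L, (#m : ℝ) * (#m - 1) = N at hN0 ⊢
  generalize hT : ∑ m ∈ L, (1 : ℝ) / #m = T
  have hs0 : 0 < (#L : ℝ) / N := div_pos hL0 hN0
  have hsum : ∑ m ∈ L, ((1 : ℝ) / #m + (#L / N) ^ 2 * (#m * (#m - 1)) - 2 * (#L / N)) =
      T - (#L) ^ 2 / N := by
    rw [sum_sub_distrib, sum_add_distrib, ← mul_sum, hN, hT, sum_const, nsmul_eq_mul]
    have : N ≠ 0 := hN0.ne'
    field_simp
    ring
  have key : ∀ m ∈ L, 0 ≤ (1 : ℝ) / #m + (#L / N) ^ 2 * (#m * (#m - 1)) - 2 * (#L / N) :=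
    fun m hm => cs_nonneg _ (hm2 m hm)
  constructor
  · have h1 := sum_nonneg key
    rw [hsum, sub_nonneg, div_le_iff₀ hN0] at h1
    linarith
  · intro heq m hm
    have h1 : ∑ m ∈ L, ((1 : ℝ) / #m + (#L / N) ^ 2 * (#m * (#m - 1)) - 2 * (#L / N)) = 0 := by
      rw [hsum, heq, mul_div_cancel_left₀ _ hN0.ne', sub_self]
    have h2 := (sum_eq_zero_iff_of_nonneg key).1 h1 m hm
    have h3 := cs_zero hs0 (hm2 m hm) h2
    exact_mod_cast h3

/-- In a linear space all of whose lines have two points. -/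
lemma LinSpace.lam_of_two (h : LinSpace P L) (h2 : ∀ m ∈ L, #m = 2) {x : α} (hx : x ∈ P) :
    lam L x = (#P - 1) / 2 := by
  unfold lam
  rw [← h.sum_star hx, sum_div]
  apply sum_congr rfl
  intro m hm
  rw [h2 m (mem_filter.1 hm).1]
  norm_num

lemma LinSpace.loc_of_two (h : LinSpace P L) (h2 : ∀ m ∈ L, #m = 2) :
    locEn P L - locVar P L = #P * (#P - 1) * (#P - 2) / 4 := by
  have h1 : locVar P L = 0 := by
    unfold locVar
    apply sum_eq_zero
    intro m hm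
    have : ∑ x ∈ m, ∑ y ∈ m, (lam L x - lam L y) ^ 2 = 0 := by
      apply sum_eq_zero
      intro x hx
      apply sum_eq_zero
      intro y hy
      rw [h.lam_of_two h2 (h.sub m hm hx), h.lam_of_two h2 (h.sub m hm hy)]
      ring
    rw [this, zero_div]
  have h3 : (#L : ℝ) * 2 = #P * (#P - 1) := by
    rw [← h.sum_card_mul]
    rw [sum_congr rfl (g := fun _ => (2 : ℝ)) (fun m hm => by rw [h2 m hm]; norm_num)]
    rw [sum_const, nsmul_eq_mul]
  have h4 : ∑ m ∈ L, (1 : ℝ) / #m = #L / 2 := by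
    rw [sum_congr rfl (g := fun _ => (1 / 2 : ℝ)) (fun m hm => by rw [h2 m hm]; norm_num)]
    rw [sum_const, nsmul_eq_mul]
    ring
  rw [h1, sub_zero]
  unfold locEn
  rw [h4, sum_congr rfl (fun x hx => by rw [h.lam_of_two h2 hx]), sum_const, nsmul_eq_mul]
  linarith

/-- The number of planes when every line has two points and every plane three. -/
lemma Geom.card_of_general (G : Geom P L J) (h2 : ∀ m ∈ L, #m = 2) (h3 : ∀ j ∈ J, #j = 3) :
    (#L : ℝ) * 2 = #P * (#P - 1) ∧ (#J : ℝ) * 3 = #L * (#P - 2) := by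
  constructor
  · rw [← G.lin.sum_card_mul]
    rw [sum_congr rfl (g := fun _ => (2 : ℝ)) (fun m hm => by rw [h2 m hm]; norm_num)]
    rw [sum_const, nsmul_eq_mul]
  · have e1 : ∀ m ∈ L, ∑ j ∈ J with m ⊆ j, (1 : ℝ) = #P - 2 := by
      intro m hm
      have h := G.sum_card hm
      rw [h2 m hm] at h
      rw [show ((2 : ℕ) : ℝ) = 2 by norm_num] at h
      rw [← h]
      apply sum_congr rfl
      intro j hj
      rw [h3 j (mem_filter.1 hj).1]
      norm_num
    have e2 : ∀ j ∈ J, ∑ m ∈ L with m ⊆ j, (1 : ℝ) = 3 := by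
      intro j hj
      have h := (G.linSpace hj).sum_card_mul
      rw [sum_congr rfl (g := fun _ => (2 : ℝ)) (fun m hm => by
        rw [h2 m (mem_filter.1 hm).1]; norm_num)] at h
      rw [h3 j hj, sum_const, nsmul_eq_mul] at h
      rw [sum_const, nsmul_eq_mul]
      push_cast at h
      linarith
    have e3 : ∑ m ∈ L, ∑ j ∈ J with m ⊆ j, (1 : ℝ) = ∑ j ∈ J, ∑ m ∈ L with m ⊆ j, (1 : ℝ) := by
      simp_rw [sum_filter]
      exact sum_comm
    rw [sum_congr rfl e1, sum_congr rfl e2, sum_const, sum_const, nsmul_eq_mul,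
      nsmul_eq_mul] at e3
    linarith

/-- The sharp inequality, with the case of equality. -/
theorem Geom.sharp (G : Geom P L J) (hpl : ∀ j ∈ J, Planar j (L.filter (· ⊆ j)))
    (hJ : #P ≤ 2 → J = ∅) :
    3 * (#P - 1) * #P * #J ≤ 2 * (#P - 2) * #L ^ 2 ∧
    (3 ≤ #P → (3 * (#P - 1) * #P * #J = 2 * (#P - 2) * #L ^ 2 ↔
      (∀ m ∈ L, #m = 2) ∧ ∀ j ∈ J, #j = 3)) := by
  rcases Nat.lt_or_ge #P 3 with hp | hp
  · constructor
    · rw [hJ (by omega)]
      simp
    · intro h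
      omega
  have hp' : (3 : ℝ) ≤ #P := by exact_mod_cast hp
  have hc1 : ((#P - 1 : ℕ) : ℝ) = #P - 1 := by
    rw [Nat.cast_sub (by omega)]
    norm_num
  have hc2 : ((#P - 2 : ℕ) : ℝ) = #P - 2 := by
    rw [Nat.cast_sub (by omega)]
    norm_num
  have hm := G.main_strong
  have hS : (3 : ℝ) / 2 * #J ≤ ∑ j ∈ J, (locEn j (L.filter (· ⊆ j)) -
      locVar j (L.filter (· ⊆ j))) := by
    have : ∑ j ∈ J, (3 : ℝ) / 2 ≤ ∑ j ∈ J, (locEn j (L.filter (· ⊆ j)) -
      locVar j (L.filter (· ⊆ j))) := by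
      apply sum_le_sum
      intro j hj
      have := hpl j hj
      unfold Planar at this
      linarith
    rw [sum_const, nsmul_eq_mul] at this
    linarith
  obtain ⟨hcs, hcs'⟩ := G.lin.cs
  set T := ∑ m ∈ L, (1 : ℝ) / #m with hT
  set E := ∑ j ∈ J, (locEn j (L.filter (· ⊆ j)) - locVar j (L.filter (· ⊆ j))) with hE
  have hR : (3 : ℝ) * (#P - 1) * #P * #J ≤ 2 * (#P - 2) * (#L : ℝ) ^ 2 := by
    have a1 : (#P : ℝ) * (3 / 2 * #J) ≤ #L ^ 2 - #P * T := by nlinarith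
    have a2 : ((#P : ℝ) - 1) * (#P * (3 / 2 * #J)) ≤ (#P - 1) * (#L ^ 2 - #P * T) :=
      mul_le_mul_of_nonneg_left a1 (by linarith)
    nlinarith
  constructor
  · have : ((3 * (#P - 1) * #P * #J : ℕ) : ℝ) ≤ ((2 * (#P - 2) * #L ^ 2 : ℕ) : ℝ) := by
      push_cast [hc1, hc2]
      exact hR
    exact_mod_cast this
  · intro _
    constructor
    · intro heq
      have heq' : (3 : ℝ) * (#P - 1) * #P * #J = 2 * (#P - 2) * (#L : ℝ) ^ 2 := by
        have : ((3 * (#P - 1) * #P * #J : ℕ) : ℝ) = ((2 * (#P - 2) * #L ^ 2 : ℕ) : ℝ) := by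
          rw [heq]
        push_cast [hc1, hc2] at this
        exact this
      have a1 : ((#P : ℝ) - 1) * (#P * E + #P * T) ≤ (#P - 1) * #L ^ 2 :=
        mul_le_mul_of_nonneg_left hm (by linarith)
      have a2 : ((#P : ℝ) - 1) * #P * (3 / 2 * #J) ≤ ((#P : ℝ) - 1) * #P * E :=
        mul_le_mul_of_nonneg_left hS (by nlinarith)
      have b1 : (#L : ℝ) ^ 2 = (#P * (#P - 1)) * T := by nlinarith
      have h2 := hcs' b1
      refine ⟨h2, ?_⟩
      have b2 : ((#P : ℝ) - 1) * #P * (3 / 2 * #J) = ((#P : ℝ) - 1) * #P * E := by nlinarith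
      have b3 : (3 : ℝ) / 2 * #J = E := by
        have : ((#P : ℝ) - 1) * #P ≠ 0 := by
          have : (0 : ℝ) < (#P - 1) * #P := by nlinarith
          exact this.ne'
        exact mul_left_cancel₀ this b2
      have b4 : ∑ j ∈ J, ((locEn j (L.filter (· ⊆ j)) - locVar j (L.filter (· ⊆ j))) -
          3 / 2) = 0 := by
        rw [sum_sub_distrib, sum_const, nsmul_eq_mul, ← hE, ← b3]
        ring
      intro j hj
      have b5 := (sum_eq_zero_iff_of_nonneg (fun j hj => by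
        have := hpl j hj
        unfold Planar at this
        linarith)).1 b4 j hj
      rw [(G.linSpace hj).loc_of_two (fun m hm => h2 m (mem_filter.1 hm).1)] at b5
      have b6 : (#j : ℝ) * (#j - 1) * (#j - 2) = 6 := by linarith
      have b7 : ((#j : ℝ) - 3) * (#j ^ 2 + 2) = 0 := by nlinarith
      rcases mul_eq_zero.1 b7 with b8 | b8
      · have : (#j : ℝ) = 3 := by linarith
        exact_mod_cast this
      · nlinarith [sq_nonneg (#j : ℝ)]
    · rintro ⟨h2, h3⟩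
      obtain ⟨c1, c2⟩ := G.card_of_general h2 h3
      have : ((3 * (#P - 1) * #P * #J : ℕ) : ℝ) = ((2 * (#P - 2) * #L ^ 2 : ℕ) : ℝ) := by
        push_cast [hc1, hc2]
        have c3 : (#J : ℝ) = #L * (#P - 2) / 3 := by linarith
        have c4 : (#P : ℝ) * (#P - 1) = #L * 2 := by linarith
        rw [c3]
        calc (3 : ℝ) * (#P - 1) * #P * (#L * (#P - 2) / 3)
            = (#P * (#P - 1)) * (#L * (#P - 2)) := by ring
          _ = _ := by rw [c4]; ring
      exact_mod_cast this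

end Pool.Agent.Lib.MP_359af5_co
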